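import Pool.Agent.H67.Lob.CoreA

/-!
# The caterpillar labelling of the neighbourhood of a path

`c 0 = w, c 1, …, c m` a chain with `par (c (i+1)) = c i`.  `K i = {w} ∪ {x ∈ S | x ≠ w, par x = c j for
some j < i}`.  By induction on `i ≤ m`: there is a caterpillar labelling of `K i` with head `c i`:
first add the vertices `x ∈ S`, `x ≠ w`, `par x = c i`, `x ≠ c (i+1)` (`core_set`), then `c (i+1)`
moving the head (`core_leaf`).  Finally add all `x` with `par x = c m`.
-/

namespace Pool.Agent.H67.Lob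

variable {V : Type} [DecidableEq V]

/-- the vertex set after `i` steps -/
private def chain_K (par : V → V) (w : V) (S : Finset V) (c : ℕ → V) (i : ℕ) : Finset V :=
  S.filter (fun x => x = w ∨ par x ∈ (Finset.range i).image c)

private theorem chain_mem {par : V → V} {w : V} {S : Finset V} {c : ℕ → V} {i : ℕ} {x : V} :
    x ∈ chain_K par w S c i ↔ x ∈ S ∧ (x = w ∨ ∃ j < i, c j = par x) := by
  simp only [chain_K, Finset.mem_filter, Finset.mem_image, Finset.mem_range]

private theorem chain_mem_succ {par : V → V} {w : V} {S : Finset V} {c : ℕ → V} {i : ℕ} {x : V} :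
    x ∈ chain_K par w S c (i + 1) ↔ x ∈ chain_K par w S c i ∨ (x ∈ S ∧ x ≠ w ∧ par x = c i) := by
  rw [chain_mem, chain_mem]
  constructor
  · rintro ⟨hx, rfl | ⟨j, hj, hjx⟩⟩
    · exact Or.inl ⟨hx, Or.inl rfl⟩
    · rcases Nat.lt_succ_iff_lt_or_eq.mp hj with h | h
      · exact Or.inl ⟨hx, Or.inr ⟨j, h, hjx⟩⟩
      · by_cases hxw : x = w
        · exact Or.inl ⟨hx, Or.inl hxw⟩
        · exact Or.inr ⟨hx, hxw, by rw [← hjx, h]⟩
  · rintro (⟨hx, rfl | ⟨j, hj, hjx⟩⟩ | ⟨hx, hxw, hp⟩)
    · exact ⟨hx, Or.inl rfl⟩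
    · exact ⟨hx, Or.inr ⟨j, by omega, hjx⟩⟩
    · exact ⟨hx, Or.inr ⟨i, by omega, hp.symm⟩⟩

theorem core_chain {par : V → V} {w : V} {cl : V → Bool} {S : Finset V} (c : ℕ → V) (m : ℕ)
    (hw : w ∈ S) (hcl : ∀ x ∈ S, x ≠ w → cl x ≠ cl (par x))
    (h0 : c 0 = w) (hcS : ∀ i ≤ m, c i ∈ S) (hcw : ∀ i ≤ m, 0 < i → c i ≠ w)
    (hinj : ∀ i ≤ m, ∀ j ≤ m, c i = c j → i = j) (hpar : ∀ i < m, par (c (i + 1)) = c i) :
    ∃ g a b, Core par w cl
      (S.filter (fun x => x = w ∨ par x ∈ (Finset.range (m + 1)).image c)) g a b (c m) := by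
  have hnot : ∀ i ≤ m, ∀ x, par x = c i → x ≠ w → x ∉ chain_K par w S c i := by
    intro i hi x hx hxw hK
    rw [chain_mem] at hK
    rcases hK.2 with h | ⟨j, hj, hjx⟩
    · exact hxw h
    · have := hinj j (by omega) i hi (by rw [hjx, hx])
      omega
  have main : ∀ i ≤ m, ∃ g a b, Core par w cl (chain_K par w S c i) g a b (c i) := by
    intro i
    induction i with
    | zero =>
      intro _
      refine ⟨fun _ => 1, 1, 0, ?_⟩
      have h1 : chain_K par w S c 0 = {w} := by
        ext x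
        rw [chain_mem, Finset.mem_singleton]
        constructor
        · rintro ⟨_, h | ⟨j, hj, _⟩⟩
          · exact h
          · omega
        · intro h
          exact ⟨h ▸ hw, Or.inl h⟩
      rw [h1, h0]
      exact core_init par w cl
    | succ i ih =>
      intro hi
      obtain ⟨g, a, b, hC⟩ := ih (by omega)
      have hzS : c (i + 1) ∈ S := hcS _ hi
      have hzw : c (i + 1) ≠ w := hcw _ hi (by omega)
      have hzp : par (c (i + 1)) = c i := hpar i (by omega)
      set A : Finset V := S.filter (fun x => x ≠ w ∧ par x = c i ∧ x ≠ c (i + 1)) with hA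
      have hAm : ∀ x, x ∈ A ↔ x ∈ S ∧ x ≠ w ∧ par x = c i ∧ x ≠ c (i + 1) := by
        intro x; simp [hA]
      obtain ⟨g1, a1, b1, hC1⟩ := core_set hC A (by
        rw [Finset.disjoint_right]
        intro x hx
        obtain ⟨_, hxw, hxp, _⟩ := (hAm x).mp hx
        exact hnot i (by omega) x hxp hxw) (by
        intro z hz
        obtain ⟨hzS', hzw', hzp', _⟩ := (hAm z).mp hz
        refine ⟨hzp', ?_⟩
        rw [← hzp']
        exact hcl z hzS' hzw')
      have hz1 : c (i + 1) ∉ chain_K par w S c i ∪ A := by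
        rw [Finset.mem_union, not_or]
        refine ⟨hnot i (by omega) _ hzp hzw, fun h => ?_⟩
        exact ((hAm _).mp h).2.2.2 rfl
      obtain ⟨g2, a2, b2, _, hC2⟩ := core_leaf hC1 hz1 hzp (by
        have := hcl _ hzS hzw
        rwa [hzp] at this)
      refine ⟨g2, a2, b2, ?_⟩
      have hset : insert (c (i + 1)) (chain_K par w S c i ∪ A) = chain_K par w S c (i + 1) := by
        ext x
        rw [chain_mem_succ, Finset.mem_insert, Finset.mem_union, hAm]
        constructor
        · rintro (h | h | ⟨h1, h2, h3, _⟩)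
          · rw [h]; exact Or.inr ⟨hzS, hzw, hzp⟩
          · exact Or.inl h
          · exact Or.inr ⟨h1, h2, h3⟩
        · rintro (h | ⟨h1, h2, h3⟩)
          · exact Or.inr (Or.inl h)
          · by_cases hx : x = c (i + 1)
            · exact Or.inl hx
            · exact Or.inr (Or.inr ⟨h1, h2, h3, hx⟩)
      rw [hset] at hC2
      exact hC2
  obtain ⟨g, a, b, hC⟩ := main m le_rfl
  set A : Finset V := S.filter (fun x => x ≠ w ∧ par x = c m) with hA
  have hAm : ∀ x, x ∈ A ↔ x ∈ S ∧ x ≠ w ∧ par x = c m := by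
    intro x; simp [hA]
  obtain ⟨g1, a1, b1, hC1⟩ := core_set hC A (by
    rw [Finset.disjoint_right]
    intro x hx
    obtain ⟨_, hxw, hxp⟩ := (hAm x).mp hx
    exact hnot m le_rfl x hxp hxw) (by
    intro z hz
    obtain ⟨hzS', hzw', hzp'⟩ := (hAm z).mp hz
    refine ⟨hzp', ?_⟩
    rw [← hzp']
    exact hcl z hzS' hzw')
  refine ⟨g1, a1, b1, ?_⟩
  have hset : chain_K par w S c m ∪ A =
      S.filter (fun x => x = w ∨ par x ∈ (Finset.range (m + 1)).image c) := by
    show _ = chain_K par w S c (m + 1)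
    ext x
    rw [chain_mem_succ, Finset.mem_union, hAm]
  rw [← hset]
  exact hC1

end Pool.Agent.H67.Lob
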