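import Pool.Agent.H67.Lob.Defs

/-!
# Caterpillar labellings: adding leaves at the head

`core_init`: one vertex.
`core_leaf`: the new leaf `z` at the head `h` gets the number `b + 1` if `h` is in the class of `w`
(then `g h = a`, the new sum is `a + b + 1`), and `a + 1` otherwise (then `g h = b`).  The head may
stay or move to `z`.  (`g' = Function.update g z _`.)
`core_set`: `Finset.induction_on A` with `core_leaf`.
-/

namespace Pool.Agent.H67.Lob

variable {V : Type} [DecidableEq V]

theorem core_init (par : V → V) (w : V) (cl : V → Bool) :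
    Core par w cl {w} (fun _ => 1) 1 0 w where
  wS := Finset.mem_singleton_self w
  hS := Finset.mem_singleton_self w
  clS x hx hw := absurd (Finset.mem_singleton.1 hx) hw
  gw := rfl
  a1 := le_refl 1
  b0 := le_refl 0
  inj x hx y hy _ _ := (Finset.mem_singleton.1 hx).trans (Finset.mem_singleton.1 hy).symm
  imA := by
    rw [Finset.filter_singleton, if_pos rfl, Finset.image_singleton, Finset.Icc_self]
  imB := by
    rw [Finset.filter_singleton, if_neg (fun h => h rfl), Finset.image_empty]
    rfl
  injs := by
    intro x hx
    simp at hx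
  ims := by
    have h : ({w} : Finset V).erase w = ∅ := by simp
    rw [h, Finset.image_empty]
    rfl
  top := by simp

theorem coreA_Icc (l a : ℤ) (h : l ≤ a + 1) :
    insert (a + 1) (Finset.Icc l a) = Finset.Icc l (a + 1) := by
  ext x
  rw [Finset.mem_insert, Finset.mem_Icc, Finset.mem_Icc]
  omega

section
variable {par : V → V} {w : V} {cl : V → Bool} {S : Finset V} {g : V → ℤ} {a b : ℤ} {h : V}

theorem coreA_upd_img {z : V} (T : Finset V) (hz : z ∉ T) (k : ℤ) :
    T.image (Function.update g z k) = T.image g := by
  refine Finset.image_congr fun x hx => ?_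
  have hxz : x ≠ z := fun e => hz (e ▸ hx)
  exact Function.update_of_ne hxz _ _

theorem coreA_sg (hC : Core par w cl S g a b h) {z : V} (hz : z ∉ S) (k : ℤ) {x : V}
    (hx : x ∈ S.erase w) : sg par (Function.update g z k) x = sg par g x := by
  have hxS := Finset.mem_of_mem_erase hx
  have hpS := hC.clS x hxS (Finset.ne_of_mem_erase hx)
  have h1 : x ≠ z := fun e => hz (e ▸ hxS)
  have h2 : par x ≠ z := fun e => hz (e ▸ hpS)
  rw [sg, sg, Function.update_of_ne h1, Function.update_of_ne h2]

theorem coreA_sgz (hC : Core par w cl S g a b h) {z : V} (hz : z ∉ S) (hp : par z = h) (k : ℤ) :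
    sg par (Function.update g z k) z = k + g h := by
  have h2 : h ≠ z := fun e => hz (e ▸ hC.hS)
  rw [sg, hp, Function.update_self, Function.update_of_ne h2]

theorem coreA_erase (hC : Core par w cl S g a b h) {z : V} (hz : z ∉ S) :
    (insert z S).erase w = insert z (S.erase w) := by
  rw [Finset.erase_insert_of_ne]
  exact fun e => hz (e ▸ hC.wS)

theorem coreA_ims (hC : Core par w cl S g a b h) {z : V} (hz : z ∉ S) (hp : par z = h) (k : ℤ)
    (hk : k + g h = a + b + 1) :
    ((insert z S).erase w).image (sg par (Function.update g z k)) = Finset.Icc 2 (a + b + 1) := by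
  rw [coreA_erase hC hz, Finset.image_insert, coreA_sgz hC hz hp, hk,
    Finset.image_congr (g := sg par g) (fun x hx => coreA_sg hC hz k hx), hC.ims]
  exact coreA_Icc 2 (a + b) (by have := hC.a1; have := hC.b0; omega)

theorem coreA_injs (hC : Core par w cl S g a b h) {z : V} (hz : z ∉ S) (hp : par z = h) (k : ℤ)
    (hk : k + g h = a + b + 1) :
    Set.InjOn (sg par (Function.update g z k)) ((insert z S).erase w) := by
  have hlt : ∀ x ∈ S.erase w, sg par g x ≤ a + b := by
    intro x hx
    have h1 : sg par g x ∈ (S.erase w).image (sg par g) := Finset.mem_image_of_mem _ hx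
    rw [hC.ims, Finset.mem_Icc] at h1
    exact h1.2
  rw [coreA_erase hC hz]
  intro x hx y hy hxy
  rcases Finset.mem_insert.1 (Finset.mem_coe.1 hx) with rfl | hx'
  · rcases Finset.mem_insert.1 (Finset.mem_coe.1 hy) with rfl | hy'
    · rfl
    · exfalso
      rw [coreA_sgz hC hz hp, coreA_sg hC hz _ hy', hk] at hxy
      have := hlt y hy'
      omega
  · rcases Finset.mem_insert.1 (Finset.mem_coe.1 hy) with rfl | hy'
    · exfalso
      rw [coreA_sgz hC hz hp, coreA_sg hC hz _ hx', hk] at hxy
      have := hlt x hx'
      omega
    · rw [coreA_sg hC hz _ hx', coreA_sg hC hz _ hy'] at hxy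
      exact hC.injs hx' hy' hxy

theorem coreA_clS (hC : Core par w cl S g a b h) {z : V} (hp : par z = h) :
    ∀ x ∈ insert z S, x ≠ w → par x ∈ insert z S := by
  intro x hx hxw
  rcases Finset.mem_insert.1 hx with rfl | hx'
  · rw [hp]
    exact Finset.mem_insert_of_mem hC.hS
  · exact Finset.mem_insert_of_mem (hC.clS x hx' hxw)

theorem coreA_inj (hC : Core par w cl S g a b h) {z : V} (hz : z ∉ S) (k : ℤ)
    (hk : ∀ x ∈ S, cl x = cl z → g x ≠ k) :
    ∀ x ∈ insert z S, ∀ y ∈ insert z S, cl x = cl y →
      Function.update g z k x = Function.update g z k y → x = y := by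
  have hne : ∀ x ∈ S, x ≠ z := fun x hx e => hz (e ▸ hx)
  intro x hx y hy hc hxy
  rcases Finset.mem_insert.1 hx with rfl | hx'
  · rcases Finset.mem_insert.1 hy with rfl | hy'
    · rfl
    · exfalso
      rw [Function.update_self, Function.update_of_ne (hne y hy')] at hxy
      exact hk y hy' hc.symm hxy.symm
  · rcases Finset.mem_insert.1 hy with rfl | hy'
    · exfalso
      rw [Function.update_self, Function.update_of_ne (hne x hx')] at hxy
      exact hk x hx' hc hxy
    · rw [Function.update_of_ne (hne x hx'), Function.update_of_ne (hne y hy')] at hxy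
      exact hC.inj x hx' y hy' hc hxy

end

theorem core_leaf {par : V → V} {w : V} {cl : V → Bool} {S : Finset V} {g : V → ℤ} {a b : ℤ}
    {h : V} (hC : Core par w cl S g a b h) {z : V} (hz : z ∉ S) (hp : par z = h)
    (hcl : cl z ≠ cl h) :
    ∃ g' a' b', Core par w cl (insert z S) g' a' b' h ∧ Core par w cl (insert z S) g' a' b' z := by
  have hzw : w ≠ z := fun e => hz (e ▸ hC.wS)
  have hzh : h ≠ z := fun e => hz (e ▸ hC.hS)
  by_cases hh : cl h = cl w
  · have hzcl : cl z ≠ cl w := fun e => hcl (e.trans hh.symm)
    have htop : g h = a := by rw [hC.top, if_pos hh]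
    have hk : b + 1 + g h = a + b + 1 := by rw [htop]; ring
    have hkx : ∀ x ∈ S, cl x = cl z → g x ≠ b + 1 := by
      intro x hx hc hg
      have h1 : g x ∈ (S.filter (fun x => cl x ≠ cl w)).image g :=
        Finset.mem_image_of_mem _ (Finset.mem_filter.2 ⟨hx, fun e => hzcl (hc.symm.trans e)⟩)
      rw [hC.imB, Finset.mem_Icc] at h1
      omega
    have hcore : ∀ t, t ∈ insert z S → Function.update g z (b + 1) t =
        (if cl t = cl w then a else b + 1) →
        Core par w cl (insert z S) (Function.update g z (b + 1)) a (b + 1) t := by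
      intro t ht htt
      exact
        { wS := Finset.mem_insert_of_mem hC.wS
          hS := ht
          clS := coreA_clS hC hp
          gw := by rw [Function.update_of_ne hzw, hC.gw]
          a1 := hC.a1
          b0 := by have := hC.b0; omega
          inj := coreA_inj hC hz _ hkx
          imA := by
            rw [Finset.filter_insert, if_neg hzcl,
              coreA_upd_img _ (fun e => hz (Finset.mem_filter.1 e).1), hC.imA]
          imB := by
            rw [Finset.filter_insert, if_pos hzcl, Finset.image_insert, Function.update_self,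
              coreA_upd_img _ (fun e => hz (Finset.mem_filter.1 e).1), hC.imB]
            exact coreA_Icc 1 b (by have := hC.b0; omega)
          injs := coreA_injs hC hz hp _ hk
          ims := by
            rw [coreA_ims hC hz hp _ hk, add_assoc]
          top := htt }
    refine ⟨Function.update g z (b + 1), a, b + 1,
      hcore h (Finset.mem_insert_of_mem hC.hS) ?_, hcore z (Finset.mem_insert_self _ _) ?_⟩
    · rw [Function.update_of_ne hzh, if_pos hh, htop]
    · rw [Function.update_self, if_neg hzcl]
  · have hzcl : cl z = cl w := by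
      revert hcl hh
      generalize cl z = p
      generalize cl h = q
      generalize cl w = r
      cases p <;> cases q <;> cases r <;> simp
    have htop : g h = b := by rw [hC.top, if_neg hh]
    have hk : a + 1 + g h = a + b + 1 := by rw [htop]; ring
    have hkx : ∀ x ∈ S, cl x = cl z → g x ≠ a + 1 := by
      intro x hx hc hg
      have h1 : g x ∈ (S.filter (fun x => cl x = cl w)).image g :=
        Finset.mem_image_of_mem _ (Finset.mem_filter.2 ⟨hx, hc.trans hzcl⟩)
      rw [hC.imA, Finset.mem_Icc] at h1
      omega
    have hcore : ∀ t, t ∈ insert z S → Function.update g z (a + 1) t =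
        (if cl t = cl w then a + 1 else b) →
        Core par w cl (insert z S) (Function.update g z (a + 1)) (a + 1) b t := by
      intro t ht htt
      exact
        { wS := Finset.mem_insert_of_mem hC.wS
          hS := ht
          clS := coreA_clS hC hp
          gw := by rw [Function.update_of_ne hzw, hC.gw]
          a1 := by have := hC.a1; omega
          b0 := hC.b0
          inj := coreA_inj hC hz _ hkx
          imA := by
            rw [Finset.filter_insert, if_pos hzcl, Finset.image_insert, Function.update_self,
              coreA_upd_img _ (fun e => hz (Finset.mem_filter.1 e).1), hC.imA]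
            exact coreA_Icc 1 a (by have := hC.a1; omega)
          imB := by
            rw [Finset.filter_insert, if_neg (fun e => e hzcl),
              coreA_upd_img _ (fun e => hz (Finset.mem_filter.1 e).1), hC.imB]
          injs := coreA_injs hC hz hp _ hk
          ims := by
            rw [coreA_ims hC hz hp _ hk]
            congr 1
            ring
          top := htt }
    refine ⟨Function.update g z (a + 1), a + 1, b,
      hcore h (Finset.mem_insert_of_mem hC.hS) ?_, hcore z (Finset.mem_insert_self _ _) ?_⟩
    · rw [Function.update_of_ne hzh, if_neg hh, htop]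
    · rw [Function.update_self, if_pos hzcl]

theorem core_set {par : V → V} {w : V} {cl : V → Bool} {S : Finset V} {g : V → ℤ} {a b : ℤ}
    {h : V} (hC : Core par w cl S g a b h) (A : Finset V) (hA : Disjoint S A)
    (hp : ∀ z ∈ A, par z = h ∧ cl z ≠ cl h) :
    ∃ g' a' b', Core par w cl (S ∪ A) g' a' b' h := by
  induction A using Finset.induction_on with
  | empty => exact ⟨g, a, b, by rwa [Finset.union_empty]⟩
  | insert z A hzA ih =>
    obtain ⟨g', a', b', hC'⟩ := ih (Finset.disjoint_of_subset_right (Finset.subset_insert _ _) hA)
      (fun y hy => hp y (Finset.mem_insert_of_mem hy))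
    have hzS : z ∉ S := fun e => Finset.disjoint_left.1 hA e (Finset.mem_insert_self _ _)
    have hz : z ∉ S ∪ A := by
      rw [Finset.mem_union]
      exact fun e => e.elim hzS hzA
    obtain ⟨h1, h2⟩ := hp z (Finset.mem_insert_self _ _)
    obtain ⟨g2, a2, b2, hC2, -⟩ := core_leaf hC' hz h1 h2
    exact ⟨g2, a2, b2, by rwa [Finset.union_insert]⟩

end Pool.Agent.H67.Lob
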