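import Pool.Agent.H67.Lob.Defs

/-!
# From caterpillar labellings to closed labellings

`f x = g x` on the class of `w`, `f x = g x - b` on the other class.  Then `f v = 0`, `f w = 1`, the
labels are `[1 - b, a]`, the sums (each edge joins the two classes) are `sg g - b`: `[2 - b, a]`.
-/

namespace Pool.Agent.H67.Lob

variable {V : Type} [DecidableEq V]

theorem core_good {par : V → V} {w : V} {cl : V → Bool} {S : Finset V} {g : V → ℤ} {a b : ℤ}
    {v : V} (hC : Core par w cl S g a b v) (hv : cl v ≠ cl w)
    (hcl : ∀ x ∈ S, x ≠ w → cl x ≠ cl (par x)) :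
    ∃ f, Good par w S f ∅ (1 - b) a ∧ f v = 0 ∧ f w = 1 ∧ a - (1 - b) + 1 = S.card := by
  classical
  let f : V → ℤ := fun x => if cl x = cl w then g x else g x - b
  have fA : ∀ x, cl x = cl w → f x = g x := fun x hx => if_pos hx
  have fB : ∀ x, cl x ≠ cl w → f x = g x - b := fun x hx => if_neg hx
  have gA : ∀ x ∈ S, cl x = cl w → 1 ≤ g x ∧ g x ≤ a := fun x hx hc => by
    have h1 : g x ∈ Finset.Icc 1 a := by
      rw [← hC.imA]
      exact Finset.mem_image_of_mem g (Finset.mem_filter.2 ⟨hx, hc⟩)
    exact Finset.mem_Icc.1 h1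
  have gB : ∀ x ∈ S, cl x ≠ cl w → 1 ≤ g x ∧ g x ≤ b := fun x hx hc => by
    have h1 : g x ∈ Finset.Icc 1 b := by
      rw [← hC.imB]
      exact Finset.mem_image_of_mem g (Finset.mem_filter.2 ⟨hx, hc⟩)
    exact Finset.mem_Icc.1 h1
  have hsg : ∀ x ∈ S, x ≠ w → sg par f x = sg par g x - b := by
    intro x hx hxw
    have h1 := hcl x hx hxw
    show f x + f (par x) = g x + g (par x) - b
    by_cases h2 : cl x = cl w
    · have h3 : cl (par x) ≠ cl w := fun h => h1 (h2.trans h.symm)
      rw [fA x h2, fB _ h3]
      ring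
    · have h3 : cl (par x) = cl w := by
        revert h1 h2
        cases cl x <;> cases cl (par x) <;> cases cl w <;> simp
      rw [fB x h2, fA _ h3]
      ring
  have hinj : Set.InjOn f S := by
    intro x hx y hy hxy
    by_cases h1 : cl x = cl w
    · by_cases h2 : cl y = cl w
      · rw [fA x h1, fA y h2] at hxy
        exact hC.inj x hx y hy (h1.trans h2.symm) hxy
      · rw [fA x h1, fB y h2] at hxy
        have h3 := gA x hx h1
        have h4 := gB y hy h2
        omega
    · by_cases h2 : cl y = cl w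
      · rw [fB x h1, fA y h2] at hxy
        have h3 := gB x hx h1
        have h4 := gA y hy h2
        omega
      · rw [fB x h1, fB y h2] at hxy
        refine hC.inj x hx y hy ?_ (by omega)
        revert h1 h2
        cases cl x <;> cases cl y <;> cases cl w <;> simp
  have himf : S.image f = Finset.Icc (1 - b) a := by
    ext z
    rw [Finset.mem_image, Finset.mem_Icc]
    constructor
    · rintro ⟨x, hx, rfl⟩
      have ha := hC.a1
      have hb := hC.b0
      by_cases h1 : cl x = cl w
      · rw [fA x h1]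
        have h3 := gA x hx h1
        omega
      · rw [fB x h1]
        have h3 := gB x hx h1
        omega
    · rintro ⟨h1, h2⟩
      rcases le_or_gt z 0 with hz | hz
      · have h3 : z + b ∈ Finset.Icc 1 b := Finset.mem_Icc.2 ⟨by omega, by omega⟩
        rw [← hC.imB, Finset.mem_image] at h3
        obtain ⟨x, hx, hxz⟩ := h3
        rw [Finset.mem_filter] at hx
        refine ⟨x, hx.1, ?_⟩
        rw [fB x hx.2]
        omega
      · have h3 : z ∈ Finset.Icc 1 a := Finset.mem_Icc.2 ⟨by omega, by omega⟩
        rw [← hC.imA, Finset.mem_image] at h3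
        obtain ⟨x, hx, hxz⟩ := h3
        rw [Finset.mem_filter] at hx
        refine ⟨x, hx.1, ?_⟩
        rw [fA x hx.2]
        exact hxz
  have hims : (S.erase w).image (sg par f) = Finset.Icc (2 - b) a := by
    ext z
    rw [Finset.mem_image, Finset.mem_Icc]
    constructor
    · rintro ⟨x, hx, rfl⟩
      have hx' := Finset.mem_erase.1 hx
      rw [hsg x hx'.2 hx'.1]
      have h3 : sg par g x ∈ Finset.Icc 2 (a + b) := by
        rw [← hC.ims]
        exact Finset.mem_image_of_mem _ hx
      rw [Finset.mem_Icc] at h3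
      omega
    · rintro ⟨h1, h2⟩
      have h3 : z + b ∈ Finset.Icc 2 (a + b) := Finset.mem_Icc.2 ⟨by omega, by omega⟩
      rw [← hC.ims, Finset.mem_image] at h3
      obtain ⟨x, hx, hxz⟩ := h3
      have hx' := Finset.mem_erase.1 hx
      refine ⟨x, hx, ?_⟩
      rw [hsg x hx'.2 hx'.1, hxz]
      ring
  refine ⟨f, ⟨hC.wS, hC.clS, hinj, ?_, ?_, ?_, ?_, ?_, ?_⟩, ?_, ?_, ?_⟩
  · intro x hx y hy hxy
    have hx' := Finset.mem_erase.1 (Finset.mem_coe.1 hx)
    have hy' := Finset.mem_erase.1 (Finset.mem_coe.1 hy)
    rw [hsg x hx'.2 hx'.1, hsg y hy'.2 hy'.1] at hxy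
    exact hC.injs hx hy (by omega)
  · exact Finset.disjoint_empty_right _
  · rw [Finset.image_empty]
    exact Finset.disjoint_empty_right _
  · rw [Finset.image_empty, Finset.union_empty, hims, Finset.mem_Icc]
    omega
  · rw [Finset.image_empty, Finset.union_empty, Finset.union_empty, hims, himf]
    have ha := hC.a1
    have hb := hC.b0
    ext z
    rw [Finset.mem_insert, Finset.mem_Icc, Finset.mem_Icc]
    omega
  · rw [Finset.union_empty, himf]
  · rw [fB v hv, hC.top, if_neg hv]
    ring
  · rw [fA w rfl, hC.gw]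
  · have h1 : (S.image f).card = S.card := Finset.card_image_of_injOn hinj
    rw [himf, Int.card_Icc] at h1
    have ha := hC.a1
    have hb := hC.b0
    omega

end Pool.Agent.H67.Lob
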