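import Mathlib

/-!
# Harmonious labelings of trees with two vertices with many leaves: definitions

`G` a finite tree rooted at `w`, `par x` the neighbour of `x` closer to `w` (`x ≠ w`), so that the
edges of `G` are the pairs `{x, par x}`, `x ≠ w`; `sg par f x = f x + f (par x)` is the edge sum.
`Good par w S f W lo hi`: `S` is a subtree, `f` an integer labelling of `S`, `W` a finite set of
integers (labels of virtual leaves at a vertex with label 1) such that
`{lo} ∪ sums ∪ (W+1) = labels ∪ W`, both unions being disjoint.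
-/

namespace Pool.Agent.H67.Lob

variable {V : Type} [DecidableEq V]

/-- edge sums -/
def sg (par : V → V) (f : V → ℤ) (x : V) : ℤ := f x + f (par x)

/-- closed labellings -/
structure Good (par : V → V) (w : V) (S : Finset V) (f : V → ℤ) (W : Finset ℤ) (lo hi : ℤ) :
    Prop where
  wS : w ∈ S
  clS : ∀ x ∈ S, x ≠ w → par x ∈ S
  inj : Set.InjOn f S
  injs : Set.InjOn (sg par f) (S.erase w)
  dFW : Disjoint (S.image f) W
  dSW : Disjoint ((S.erase w).image (sg par f)) (W.image (· + 1))
  loS : lo ∉ (S.erase w).image (sg par f) ∪ W.image (· + 1)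
  eqn : insert lo ((S.erase w).image (sg par f) ∪ W.image (· + 1)) = S.image f ∪ W
  bd : S.image f ∪ W ⊆ Finset.Icc lo hi

/-- caterpillar labellings: `g` numbers the two classes (`cl`) separately by `1..a` and `1..b`, the
head `h` has the largest number of its class, and the sums are `2..a+b` -/
structure Core (par : V → V) (w : V) (cl : V → Bool) (S : Finset V) (g : V → ℤ) (a b : ℤ) (h : V) :
    Prop where
  wS : w ∈ S
  hS : h ∈ S
  clS : ∀ x ∈ S, x ≠ w → par x ∈ S
  gw : g w = 1
  a1 : 1 ≤ a
  b0 : 0 ≤ b
  inj : ∀ x ∈ S, ∀ y ∈ S, cl x = cl y → g x = g y → x = y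
  imA : (S.filter (fun x => cl x = cl w)).image g = Finset.Icc 1 a
  imB : (S.filter (fun x => cl x ≠ cl w)).image g = Finset.Icc 1 b
  injs : Set.InjOn (sg par g) (S.erase w)
  ims : (S.erase w).image (sg par g) = Finset.Icc 2 (a + b)
  top : g h = if cl h = cl w then a else b

/-- the parent function of a tree rooted at `w` -/
structure IsPar (G : SimpleGraph V) (w : V) (par : V → V) : Prop where
  adj : ∀ x, x ≠ w → G.Adj x (par x)
  dist : ∀ x, x ≠ w → G.dist (par x) w + 1 = G.dist x w
  edge : ∀ x y, G.Adj x y → (x ≠ w ∧ y = par x) ∨ (y ≠ w ∧ x = par y)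

/-- levels: vertices whose `j`-th ancestor is in `P` -/
def TL (par : V → V) (S P : Finset V) : ℕ → Finset V
  | 0 => P
  | (j + 1) => TL par S P j ∪ S.filter (fun x => par x ∈ TL par S P j)

end Pool.Agent.H67.Lob
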