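import Pool.Agent.H67.Lob.Defs

/-!
# The final labelling modulo `q`

`q = card V - 1`, `D = [lo, lo + q)` contains `[lo, hi]`.  `X = S ∪ A ∪ B`; the vertices of `B` (leaves
at `w`, `f w = 1`) get the labels `W`, bijectively; the vertices of `A` (leaves at `v`, `f v = 0`) get
the labels in `D` which are not in `sums ∪ (W + 1)`, bijectively: the number is
`q - (card S - 1) - card W = card A`.
Surjective: every element of `D` in `sums ∪ (W+1)` is in `labels ∪ W` (`eqn`).
Injectivity of the edge sums: for `x ∈ S` the sum is in `sums`, for `x ∈ B` it is (label)+1 in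
`W + 1`, for `x ∈ A` it is the label; these are distinct elements of `D`, and `D → ZMod q` is
injective (`ZMod.intCast_eq_intCast_iff`, `Int.emod_emod_of_dvd` or
`Int.ModEq` with `|a - b| < q`).
-/

namespace Pool.Agent.H67.Lob

variable {V : Type} [DecidableEq V] [Fintype V]

theorem fin_exists_bij (s : Finset V) (t : Finset ℤ) (h : s.card = t.card) :
    ∃ g : V → ℤ, (∀ x ∈ s, g x ∈ t) ∧ (∀ x ∈ s, ∀ y ∈ s, g x = g y → x = y) ∧
      ∀ z ∈ t, ∃ x ∈ s, g x = z := by
  classical
  let e := Finset.equivOfCardEq h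
  have hg : ∀ x (hx : x ∈ s), (fun x => if hx : x ∈ s then ((e ⟨x, hx⟩ : t) : ℤ) else 0) x =
      ((e ⟨x, hx⟩ : t) : ℤ) := fun x hx => by
    beta_reduce
    rw [dif_pos hx]
  refine ⟨fun x => if hx : x ∈ s then ((e ⟨x, hx⟩ : t) : ℤ) else 0, ?_, ?_, ?_⟩
  · intro x hx
    rw [hg x hx]
    exact (e ⟨x, hx⟩).2
  · intro x hx y hy hxy
    rw [hg x hx, hg y hy] at hxy
    have h1 := e.injective (Subtype.ext hxy)
    exact congrArg Subtype.val h1
  · intro z hz
    obtain ⟨⟨x, hx⟩, hxz⟩ := e.surjective ⟨z, hz⟩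
    refine ⟨x, hx, ?_⟩
    rw [hg x hx, hxz]

theorem good_final {par : V → V} {w : V} {S : Finset V} {f : V → ℤ} {W : Finset ℤ} {lo hi : ℤ}
    (hG : Good par w S f W lo hi) {v : V} (hv : v ∈ S) (hfv : f v = 0) (hfw : f w = 1)
    (A B : Finset V) (hSA : Disjoint S A) (hSB : Disjoint S B) (hAB : Disjoint A B)
    (hU : S ∪ A ∪ B = Finset.univ) (hA : ∀ x ∈ A, par x = v) (hB : ∀ x ∈ B, par x = w)
    (hBW : B.card = W.card) (hq : hi - lo + 1 ≤ (Fintype.card V : ℤ) - 1) :
    ∃ F : V → ZMod (Fintype.card V - 1), Function.Surjective F ∧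
      ∀ x y : V, x ≠ w → y ≠ w → F x + F (par x) = F y + F (par y) → x = y := by
  classical
  have hn1 : 1 ≤ Fintype.card V := Fintype.card_pos_iff.2 ⟨w⟩
  set q : ℕ := Fintype.card V - 1 with hqdef
  have hqz : (q : ℤ) = (Fintype.card V : ℤ) - 1 := by
    rw [hqdef]
    push_cast [hn1]
    ring
  rw [← hqz] at hq
  have hwlab : f w ∈ Finset.Icc lo hi :=
    hG.bd (Finset.mem_union_left _ (Finset.mem_image_of_mem f hG.wS))
  rw [Finset.mem_Icc] at hwlab
  have hqpos : (0 : ℤ) < q := by omega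
  have hq0 : 0 < q := by exact_mod_cast hqpos
  haveI : NeZero q := ⟨hq0.ne'⟩
  set Sums : Finset ℤ := (S.erase w).image (sg par f) with hSums
  set W1 : Finset ℤ := W.image (· + 1) with hW1
  set T : Finset ℤ := Sums ∪ W1 with hT
  set D : Finset ℤ := Finset.Ico lo (lo + q) with hD
  have hbdD : Finset.Icc lo hi ⊆ D := by
    intro z hz
    rw [Finset.mem_Icc] at hz
    rw [hD, Finset.mem_Ico]
    omega
  have hTD : T ⊆ D := by
    intro z hz
    apply hbdD
    apply hG.bd
    rw [← hG.eqn]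
    exact Finset.mem_insert_of_mem hz
  -- cardinalities
  have cS : Sums.card = S.card - 1 := by
    rw [hSums, Finset.card_image_of_injOn hG.injs, Finset.card_erase_of_mem hG.wS]
  have cW : W1.card = W.card := by
    rw [hW1, Finset.card_image_of_injective _ (add_left_injective 1)]
  have cT : T.card = Sums.card + W1.card := Finset.card_union_of_disjoint hG.dSW
  have cD : D.card = q := by
    rw [hD, Int.card_Ico]
    simp
  have cU : S.card + A.card + B.card = Fintype.card V := by
    rw [← Finset.card_univ, ← hU, Finset.card_union_of_disjoint, Finset.card_union_of_disjoint hSA]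
    rw [Finset.disjoint_union_left]
    exact ⟨hSB, hAB⟩
  have cS1 : 1 ≤ S.card := Finset.card_pos.2 ⟨w, hG.wS⟩
  have cR : A.card = (D \ T).card := by
    rw [Finset.card_sdiff_of_subset hTD, cD, cT, cS, cW, ← hBW]
    omega
  obtain ⟨gB, gB1, gB2, gB3⟩ := fin_exists_bij B W hBW
  obtain ⟨gA, gA1, gA2, gA3⟩ := fin_exists_bij A (D \ T) cR
  have cases : ∀ x : V, x ∈ S ∨ x ∈ A ∨ x ∈ B := by
    intro x
    have h1 : x ∈ S ∪ A ∪ B := by
      rw [hU]
      exact Finset.mem_univ x
    rw [Finset.mem_union, Finset.mem_union, or_assoc] at h1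
    exact h1
  set lab : V → ℤ := fun x => if x ∈ S then f x else if x ∈ B then gB x else gA x with hlab
  have labS : ∀ x ∈ S, lab x = f x := fun x hx => by
    rw [hlab]
    beta_reduce
    rw [if_pos hx]
  have labB : ∀ x ∈ B, lab x = gB x := fun x hx => by
    rw [hlab]
    beta_reduce
    rw [if_neg (Finset.disjoint_right.1 hSB hx), if_pos hx]
  have labA : ∀ x ∈ A, lab x = gA x := fun x hx => by
    rw [hlab]
    beta_reduce
    rw [if_neg (Finset.disjoint_right.1 hSA hx), if_neg (Finset.disjoint_left.1 hAB hx)]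
  -- the edge sums
  have sS : ∀ x ∈ S, x ≠ w → lab x + lab (par x) ∈ Sums := by
    intro x hx hxw
    rw [labS x hx, labS _ (hG.clS x hx hxw)]
    exact Finset.mem_image_of_mem (sg par f) (Finset.mem_erase.2 ⟨hxw, hx⟩)
  have sB : ∀ x ∈ B, lab x + lab (par x) ∈ W1 := by
    intro x hx
    rw [labB x hx, hB x hx, labS w hG.wS, hfw]
    exact Finset.mem_image_of_mem _ (gB1 x hx)
  have sA : ∀ x ∈ A, lab x + lab (par x) ∈ D \ T := by
    intro x hx
    rw [labA x hx, hA x hx, labS v hv, hfv, add_zero]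
    exact gA1 x hx
  have hsum : ∀ x, x ≠ w → lab x + lab (par x) ∈ D := by
    intro x hxw
    rcases cases x with hx | hx | hx
    · exact hTD (Finset.mem_union_left _ (sS x hx hxw))
    · exact (Finset.mem_sdiff.1 (sA x hx)).1
    · exact hTD (Finset.mem_union_right _ (sB x hx))
  have dSW : Disjoint Sums W1 := hG.dSW
  have hsinj : ∀ x y, x ≠ w → y ≠ w → lab x + lab (par x) = lab y + lab (par y) → x = y := by
    intro x y hxw hyw hxy
    have nT : ∀ x ∈ A, ∀ y, lab x + lab (par x) = lab y + lab (par y) →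
        lab y + lab (par y) ∉ T := by
      intro x hx y hxy
      rw [← hxy]
      exact (Finset.mem_sdiff.1 (sA x hx)).2
    rcases cases x with hx | hx | hx <;> rcases cases y with hy | hy | hy
    · have h1 : sg par f x = sg par f y := by
        unfold sg
        rw [labS x hx, labS _ (hG.clS x hx hxw), labS y hy, labS _ (hG.clS y hy hyw)] at hxy
        exact hxy
      exact hG.injs (Finset.mem_coe.2 (Finset.mem_erase.2 ⟨hxw, hx⟩))
        (Finset.mem_coe.2 (Finset.mem_erase.2 ⟨hyw, hy⟩)) h1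
    · exact absurd (Finset.mem_union_left _ (sS x hx hxw)) (nT y hy x hxy.symm)
    · have h1 := sS x hx hxw
      rw [hxy] at h1
      exact absurd (sB y hy) (Finset.disjoint_left.1 dSW h1)
    · exact absurd (Finset.mem_union_left _ (sS y hy hyw)) (nT x hx y hxy)
    · rw [labA x hx, labA y hy, hA x hx, hA y hy] at hxy
      exact gA2 x hx y hy (add_right_cancel hxy)
    · exact absurd (Finset.mem_union_right _ (sB y hy)) (nT x hx y hxy)
    · have h1 := sS y hy hyw
      rw [← hxy] at h1
      exact absurd (sB x hx) (Finset.disjoint_left.1 dSW h1)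
    · exact absurd (Finset.mem_union_right _ (sB x hx)) (nT y hy x hxy.symm)
    · rw [labB x hx, labB y hy, hB x hx, hB y hy] at hxy
      exact gB2 x hx y hy (add_right_cancel hxy)
  refine ⟨fun x => ((lab x : ℤ) : ZMod q), ?_, ?_⟩
  · intro z
    obtain ⟨d, hd, hdz⟩ : ∃ d ∈ D, (d : ZMod q) = z := by
      refine ⟨lo + ((z.val : ℤ) - lo) % q, ?_, ?_⟩
      · rw [hD, Finset.mem_Ico]
        have h1 := Int.emod_nonneg ((z.val : ℤ) - lo) hqpos.ne'
        have h2 := Int.emod_lt_of_pos ((z.val : ℤ) - lo) hqpos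
        omega
      · have h3 : ((lo + ((z.val : ℤ) - lo) % q : ℤ) : ZMod q) = ((z.val : ℤ) : ZMod q) := by
          rw [ZMod.intCast_eq_intCast_iff]
          have h4 : (lo + ((z.val : ℤ) - lo) % q) ≡ lo + ((z.val : ℤ) - lo) [ZMOD q] :=
            (Int.mod_modEq _ _).add_left lo
          rwa [add_sub_cancel] at h4
        rw [h3, Int.cast_natCast, ZMod.natCast_zmod_val]
    by_cases hdT : d ∈ T
    · have h1 : d ∈ S.image f ∪ W := by
        rw [← hG.eqn]
        exact Finset.mem_insert_of_mem hdT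
      rcases Finset.mem_union.1 h1 with h2 | h2
      · obtain ⟨x, hx, hxd⟩ := Finset.mem_image.1 h2
        refine ⟨x, ?_⟩
        beta_reduce
        rw [labS x hx, hxd, hdz]
      · obtain ⟨x, hx, hxd⟩ := gB3 d h2
        refine ⟨x, ?_⟩
        beta_reduce
        rw [labB x hx, hxd, hdz]
    · obtain ⟨x, hx, hxd⟩ := gA3 d (Finset.mem_sdiff.2 ⟨hd, hdT⟩)
      refine ⟨x, ?_⟩
      beta_reduce
      rw [labA x hx, hxd, hdz]
  · intro x y hxw hyw hxy
    beta_reduce at hxy
    rw [← Int.cast_add, ← Int.cast_add, ZMod.intCast_eq_intCast_iff] at hxy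
    apply hsinj x y hxw hyw
    have h1 := hsum x hxw
    have h2 := hsum y hyw
    rw [hD, Finset.mem_Ico] at h1 h2
    have h3 := Int.ModEq.dvd hxy
    obtain ⟨c, hc⟩ := h3
    have h4 : c = 0 := by
      by_contra hc0
      rcases lt_or_gt_of_ne hc0 with h5 | h5
      · nlinarith
      · nlinarith
    rw [h4, mul_zero] at hc
    omega

end Pool.Agent.H67.Lob
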