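import Pool.Agent.H67.Lob.Defs

/-!
# Adding a leaf at a vertex with label `c ≤ 0`

The new sum is `hi + 1`, the new label `hi + 1 - c`, and `W` becomes
`W ∪ [hi + 1, hi + 1 - c)`.  New elements on the left of `eqn`: `hi + 1` and
`[hi + 2, hi + 2 - c)`; on the right: `hi + 1 - c` and `[hi + 1, hi + 1 - c)`; both are
`[hi + 1, hi + 1 - c]`.  All old labels, sums, elements of `W` and of `W + 1` are in `[lo, hi]`
(from `bd` and `eqn`).
-/

namespace Pool.Agent.H67.Lob

variable {V : Type} [DecidableEq V]

/-- the new values -/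
theorem stepR_old {S : Finset V} {f : V → ℤ} {y : V} (hy : y ∉ S) (t : ℤ) {x : V} (hx : x ∈ S) :
    Function.update f y t x = f x :=
  Function.update_of_ne (by rintro rfl; exact hy hx) _ _

theorem stepR_img {S : Finset V} {f : V → ℤ} {y : V} (hy : y ∉ S) (t : ℤ) :
    (insert y S).image (Function.update f y t) = insert t (S.image f) := by
  rw [Finset.image_insert, Function.update_self]
  congr 1
  exact Finset.image_congr fun x hx => stepR_old hy t hx

theorem stepR_sg {par : V → V} {w : V} {S : Finset V} {f : V → ℤ} (hcl : ∀ x ∈ S, x ≠ w → par x ∈ S)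
    {y : V} (hy : y ∉ S) (t : ℤ) {x : V} (hx : x ∈ S.erase w) :
    sg par (Function.update f y t) x = sg par f x := by
  have h1 := Finset.mem_erase.1 hx
  unfold sg
  rw [stepR_old hy t h1.2, stepR_old hy t (hcl x h1.2 h1.1)]

theorem stepR_erase {w : V} {S : Finset V} (hw : w ∈ S) {y : V} (hy : y ∉ S) :
    (insert y S).erase w = insert y (S.erase w) :=
  Finset.erase_insert_of_ne (by rintro rfl; exact hy hw)

theorem stepR_sgy {par : V → V} {S : Finset V} {f : V → ℤ} {y : V} (hy : y ∉ S) (hp : par y ∈ S)
    (t : ℤ) : sg par (Function.update f y t) y = t + f (par y) := by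
  unfold sg
  rw [Function.update_self, stepR_old hy t hp]

theorem stepR_sums {par : V → V} {w : V} {S : Finset V} {f : V → ℤ} (hw : w ∈ S)
    (hcl : ∀ x ∈ S, x ≠ w → par x ∈ S) {y : V} (hy : y ∉ S) (hp : par y ∈ S) (t : ℤ) :
    ((insert y S).erase w).image (sg par (Function.update f y t)) =
      insert (t + f (par y)) ((S.erase w).image (sg par f)) := by
  rw [stepR_erase hw hy, Finset.image_insert, stepR_sgy hy hp]
  congr 1
  exact Finset.image_congr fun x hx => stepR_sg hcl hy t hx

theorem good_right {par : V → V} {w : V} {S : Finset V} {f : V → ℤ} {W : Finset ℤ} {lo hi : ℤ}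
    (hG : Good par w S f W lo hi) {y : V} (hy : y ∉ S) (hp : par y ∈ S) (hc : f (par y) ≤ 0) :
    Good par w (insert y S) (Function.update f y (hi + 1 - f (par y)))
      (W ∪ Finset.Ico (hi + 1) (hi + 1 - f (par y))) lo (hi + 1 - f (par y)) := by
  obtain ⟨wS, clS, inj, injs, dFW, dSW, loS, eqn, bd⟩ := hG
  have himg := stepR_img (f := f) hy (hi + 1 - f (par y))
  have hsum := stepR_sums (f := f) wS clS hy hp (hi + 1 - f (par y))
  have hc' : hi + 1 - f (par y) + f (par y) = hi + 1 := by ring
  rw [hc'] at hsum
  have hW1 : (W ∪ Finset.Ico (hi + 1) (hi + 1 - f (par y))).image (· + 1) =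
      W.image (· + 1) ∪ Finset.Ico (hi + 2) (hi + 2 - f (par y)) := by
    rw [Finset.image_union]
    congr 1
    ext z
    rw [Finset.mem_image, Finset.mem_Ico]
    constructor
    · rintro ⟨a, ha, rfl⟩
      rw [Finset.mem_Ico] at ha
      omega
    · intro hz
      exact ⟨z - 1, Finset.mem_Ico.2 (by omega), by ring⟩
  have hF : ∀ z ∈ S.image f, lo ≤ z ∧ z ≤ hi := fun z hz =>
    Finset.mem_Icc.1 (bd (Finset.mem_union_left _ hz))
  have hW : ∀ z ∈ W, lo ≤ z ∧ z ≤ hi := fun z hz =>
    Finset.mem_Icc.1 (bd (Finset.mem_union_right _ hz))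
  have hL : ∀ z ∈ insert lo ((S.erase w).image (sg par f) ∪ W.image (· + 1)),
      lo ≤ z ∧ z ≤ hi := by
    intro z hz
    rw [eqn] at hz
    exact Finset.mem_Icc.1 (bd hz)
  have hlo : lo ≤ hi := (hL lo (Finset.mem_insert_self _ _)).2
  have hs : ∀ z ∈ (S.erase w).image (sg par f), lo ≤ z ∧ z ≤ hi := fun z hz =>
    hL z (Finset.mem_insert_of_mem (Finset.mem_union_left _ hz))
  have hW' : ∀ z ∈ W.image (· + 1), lo ≤ z ∧ z ≤ hi := fun z hz =>
    hL z (Finset.mem_insert_of_mem (Finset.mem_union_right _ hz))
  refine ⟨Finset.mem_insert_of_mem wS, ?_, ?_, ?_, ?_, ?_, ?_, ?_, ?_⟩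
  · intro x hx hxw
    rcases Finset.mem_insert.1 hx with rfl | hx
    · exact Finset.mem_insert_of_mem hp
    · exact Finset.mem_insert_of_mem (clS x hx hxw)
  · rw [Finset.coe_insert, Set.injOn_insert (by exact_mod_cast hy)]
    refine ⟨fun a ha b hb hab => ?_, ?_⟩
    · rw [stepR_old hy _ ha, stepR_old hy _ hb] at hab
      exact inj ha hb hab
    · rintro ⟨a, ha, hab⟩
      rw [stepR_old hy _ ha, Function.update_self] at hab
      have := hF (f a) (Finset.mem_image_of_mem f ha)
      omega
  · rw [stepR_erase wS hy, Finset.coe_insert, Set.injOn_insert (by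
      rw [Finset.mem_coe, Finset.mem_erase]; exact fun h => hy h.2)]
    refine ⟨fun a ha b hb hab => ?_, ?_⟩
    · rw [stepR_sg clS hy _ ha, stepR_sg clS hy _ hb] at hab
      exact injs ha hb hab
    · rintro ⟨a, ha, hab⟩
      rw [stepR_sg clS hy _ ha, stepR_sgy hy hp, hc'] at hab
      have := hs (sg par f a) (Finset.mem_image_of_mem _ ha)
      omega
  · rw [himg, Finset.disjoint_left]
    intro z hz hz'
    rw [Finset.mem_insert] at hz
    rw [Finset.mem_union, Finset.mem_Ico] at hz'
    rcases hz with rfl | hz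
    · rcases hz' with hz' | hz'
      · have := hW _ hz'
        omega
      · omega
    · rcases hz' with hz' | hz'
      · exact Finset.disjoint_left.1 dFW hz hz'
      · have := hF _ hz
        omega
  · rw [hsum, hW1, Finset.disjoint_left]
    intro z hz hz'
    rw [Finset.mem_insert] at hz
    rw [Finset.mem_union, Finset.mem_Ico] at hz'
    rcases hz with rfl | hz
    · rcases hz' with hz' | hz'
      · have := hW' _ hz'
        omega
      · omega
    · rcases hz' with hz' | hz'
      · exact Finset.disjoint_left.1 dSW hz hz'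
      · have := hs _ hz
        omega
  · rw [hsum, hW1]
    intro h
    rw [Finset.mem_union, Finset.mem_insert, Finset.mem_union, Finset.mem_Ico] at h
    rcases h with (h | h) | (h | h)
    · omega
    · exact loS (Finset.mem_union_left _ h)
    · exact loS (Finset.mem_union_right _ h)
    · omega
  · rw [hsum, hW1, himg]
    ext z
    have h1 : z ∈ insert lo ((S.erase w).image (sg par f) ∪ W.image (· + 1)) ↔
        z ∈ S.image f ∪ W := by rw [eqn]
    rw [Finset.mem_insert, Finset.mem_union, Finset.mem_union] at h1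
    rw [Finset.mem_insert, Finset.mem_union, Finset.mem_insert, Finset.mem_union,
      Finset.mem_union, Finset.mem_insert, Finset.mem_union, Finset.mem_Ico, Finset.mem_Ico]
    constructor
    · rintro (h | ((h | h) | (h | h)))
      · rcases h1.1 (Or.inl h) with h2 | h2
        · exact Or.inl (Or.inr h2)
        · exact Or.inr (Or.inl h2)
      · by_cases h3 : z = hi + 1 - f (par y)
        · exact Or.inl (Or.inl h3)
        · exact Or.inr (Or.inr (by omega))
      · rcases h1.1 (Or.inr (Or.inl h)) with h2 | h2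
        · exact Or.inl (Or.inr h2)
        · exact Or.inr (Or.inl h2)
      · rcases h1.1 (Or.inr (Or.inr h)) with h2 | h2
        · exact Or.inl (Or.inr h2)
        · exact Or.inr (Or.inl h2)
      · by_cases h3 : z = hi + 1 - f (par y)
        · exact Or.inl (Or.inl h3)
        · exact Or.inr (Or.inr (by omega))
    · have h4 : z ∈ S.image f ∨ z ∈ W → z = lo ∨ ((z = hi + 1 ∨
          z ∈ (S.erase w).image (sg par f)) ∨ (z ∈ W.image (· + 1) ∨
            (hi + 2 ≤ z ∧ z < hi + 2 - f (par y)))) := by
        intro h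
        rcases h1.2 h with h2 | h2 | h2
        · exact Or.inl h2
        · exact Or.inr (Or.inl (Or.inr h2))
        · exact Or.inr (Or.inr (Or.inl h2))
      rintro ((h | h) | (h | h))
      · by_cases h3 : z = hi + 1
        · exact Or.inr (Or.inl (Or.inl h3))
        · exact Or.inr (Or.inr (Or.inr (by omega)))
      · exact h4 (Or.inl h)
      · exact h4 (Or.inr h)
      · by_cases h3 : z = hi + 1
        · exact Or.inr (Or.inl (Or.inl h3))
        · exact Or.inr (Or.inr (Or.inr (by omega)))
  · rw [himg]
    intro z hz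
    rw [Finset.mem_union, Finset.mem_insert, Finset.mem_union, Finset.mem_Ico] at hz
    rw [Finset.mem_Icc]
    rcases hz with (hz | hz) | (hz | hz)
    · omega
    · have := hF _ hz
      omega
    · have := hW _ hz
      omega
    · omega

end Pool.Agent.H67.Lob
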