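import Pool.Agent.H67.Lob.StepL
import Pool.Agent.H67.Lob.StepR

/-!
# Adding many leaves

`good_level`: `Finset.induction_on A`: the parents are in `S`, where the labels do not change and are
in `[lo, hi]` with `lo ≤ 0 ≤ hi` (there is a vertex with label `0`), so `|f (par y)| ≤ hi - lo` and
each step (`good_left` or `good_right`) enlarges `hi - lo + 1` by at most `hi - lo + 1`.
`good_extra`: adding leaves at `w`, `f w = 1`, by `good_left`.
`good_card`: labels and `W` are disjoint subsets of `[lo, hi]`.
-/

namespace Pool.Agent.H67.Lob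

variable {V : Type} [DecidableEq V]

theorem good_level {par : V → V} {w : V} {S : Finset V} {f : V → ℤ} {W : Finset ℤ} {lo hi : ℤ}
    (hG : Good par w S f W lo hi) {v : V} (hv : v ∈ S) (hfv : f v = 0) (A : Finset V)
    (hA : Disjoint S A) (hp : ∀ y ∈ A, par y ∈ S) :
    ∃ f' W' lo' hi', Good par w (S ∪ A) f' W' lo' hi' ∧ (∀ x ∈ S, f' x = f x) ∧
      hi' - lo' + 1 ≤ (hi - lo + 1) * (1 + A.card) := by
  have hbd : ∀ x ∈ S, lo ≤ f x ∧ f x ≤ hi := by
    intro x hx
    have h1 : f x ∈ Finset.Icc lo hi :=
      hG.bd (Finset.mem_union_left _ (Finset.mem_image_of_mem f hx))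
    exact Finset.mem_Icc.1 h1
  have h0 := hbd v hv
  rw [hfv] at h0
  induction A using Finset.induction_on with
  | empty =>
    refine ⟨f, W, lo, hi, ?_, fun _ _ => rfl, ?_⟩
    · rw [Finset.union_empty]
      exact hG
    · rw [Finset.card_empty]
      push_cast
      linarith
  | insert y A' hy ih =>
    obtain ⟨hyS, hA'⟩ := Finset.disjoint_insert_right.1 hA
    obtain ⟨f', W', lo', hi', hG', hf', hb⟩ := ih hA' fun z hz => hp z (Finset.mem_insert_of_mem hz)
    have hyn : y ∉ S ∪ A' := by
      rw [Finset.mem_union]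
      rintro (h | h)
      · exact hyS h
      · exact hy h
    have hpy : par y ∈ S := hp y (Finset.mem_insert_self _ _)
    have hpy' : par y ∈ S ∪ A' := Finset.mem_union_left _ hpy
    have hfy : f' (par y) = f (par y) := hf' _ hpy
    have hby := hbd _ hpy
    have hins : S ∪ insert y A' = insert y (S ∪ A') := Finset.union_insert _ _ _
    rw [Finset.card_insert_of_notMem hy, hins]
    rcases lt_or_ge 0 (f' (par y)) with hc | hc
    · refine ⟨_, _, _, _, good_left hG' hyn hpy' hc, ?_, ?_⟩
      · intro x hx
        rw [Function.update_of_ne, hf' x hx]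
        rintro rfl
        exact hyS hx
      · rw [hfy] at hc ⊢
        push_cast
        nlinarith [hb, hby.1, hby.2, h0.1, h0.2]
    · refine ⟨_, _, _, _, good_right hG' hyn hpy' hc, ?_, ?_⟩
      · intro x hx
        rw [Function.update_of_ne, hf' x hx]
        rintro rfl
        exact hyS hx
      · rw [hfy] at hc ⊢
        push_cast
        nlinarith [hb, hby.1, hby.2, h0.1, h0.2]

theorem good_extra {par : V → V} {w : V} {S : Finset V} {f : V → ℤ} {W : Finset ℤ} {lo hi : ℤ}
    (hG : Good par w S f W lo hi) (hfw : f w = 1) (A : Finset V)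
    (hA : Disjoint S A) (hp : ∀ y ∈ A, par y = w) :
    ∃ f', Good par w (S ∪ A) f' W (lo - A.card) hi ∧ (∀ x ∈ S, f' x = f x) := by
  induction A using Finset.induction_on with
  | empty =>
    refine ⟨f, ?_, fun _ _ => rfl⟩
    rw [Finset.union_empty, Finset.card_empty, Nat.cast_zero, sub_zero]
    exact hG
  | insert y A' hy ih =>
    obtain ⟨hyS, hA'⟩ := Finset.disjoint_insert_right.1 hA
    obtain ⟨f', hG', hf'⟩ := ih hA' fun z hz => hp z (Finset.mem_insert_of_mem hz)
    have hyn : y ∉ S ∪ A' := by
      rw [Finset.mem_union]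
      rintro (h | h)
      · exact hyS h
      · exact hy h
    have hpy : par y = w := hp y (Finset.mem_insert_self _ _)
    have hpy' : par y ∈ S ∪ A' := by
      rw [hpy]
      exact hG'.wS
    have hfy : f' (par y) = 1 := by rw [hpy, hf' w hG.wS, hfw]
    have hins : S ∪ insert y A' = insert y (S ∪ A') := Finset.union_insert _ _ _
    have h := good_left hG' hyn hpy' (by rw [hfy]; exact one_pos)
    rw [Finset.card_insert_of_notMem hy, hins]
    have e : lo - ((A'.card + 1 : ℕ) : ℤ) = lo - (A'.card : ℤ) - f' (par y) := by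
      rw [hfy]
      push_cast
      ring
    rw [e]
    refine ⟨_, h, ?_⟩
    intro x hx
    rw [Function.update_of_ne, hf' x hx]
    rintro rfl
    exact hyS hx

theorem good_card {par : V → V} {w : V} {S : Finset V} {f : V → ℤ} {W : Finset ℤ} {lo hi : ℤ}
    (hG : Good par w S f W lo hi) : (W.card : ℤ) + S.card ≤ hi - lo + 1 := by
  have h1 := Finset.card_le_card hG.bd
  rw [Finset.card_union_of_disjoint hG.dFW, Finset.card_image_of_injOn hG.inj, Int.card_Icc] at h1
  have h2 : 0 < S.card := Finset.card_pos.2 ⟨w, hG.wS⟩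
  omega

end Pool.Agent.H67.Lob
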