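import Pool.Agent.H67.Lob.Level

/-!
# Levels

`TL_mem`: induction on `j`: `dist x y = j + 1`: take a neighbour `x'` of `x` with `dist x' y ≤ j`.  If
`x' ∉ S` then `x ∈ P` (`hS`).  Otherwise `x' ∈ TL j`; by `IsPar.edge` either `x' = par x`, then
`x ∈ TL (j+1)`, or `x = par x'`, `x' ≠ w`, and `TL j` is closed under `par`.
`TL_good`: induction on `j` starting with `j = 1`; step: `good_level` with
`A = TL (j+1) \ TL j`; `1 + card A ≤ card S`.
-/

namespace Pool.Agent.H67.Lob

variable {V : Type} [DecidableEq V]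

theorem levels_mono (par : V → V) (S P : Finset V) (j : ℕ) :
    TL par S P j ⊆ TL par S P (j + 1) := Finset.subset_union_left

theorem levels_succ {par : V → V} {S P : Finset V} {j : ℕ} {x : V}
    (hx : x ∈ TL par S P (j + 1)) : x ∈ TL par S P j ∨ (x ∈ S ∧ par x ∈ TL par S P j) := by
  rcases Finset.mem_union.1 hx with h | h
  · exact Or.inl h
  · exact Or.inr (Finset.mem_filter.1 h)

theorem levels_of_par {par : V → V} {S P : Finset V} {j : ℕ} {x : V}
    (hx : x ∈ S) (hp : par x ∈ TL par S P j) : x ∈ TL par S P (j + 1) :=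
  Finset.mem_union_right _ (Finset.mem_filter.2 ⟨hx, hp⟩)

theorem levels_base (par : V → V) (S P : Finset V) (j : ℕ) : P ⊆ TL par S P j := by
  induction j with
  | zero => exact Finset.Subset.refl _
  | succ j ih => exact ih.trans (levels_mono par S P j)

theorem levels_nbr {G : SimpleGraph V} (hc : G.Connected) {x y : V} {j : ℕ}
    (hd : G.dist x y = j + 1) : ∃ x', G.Adj x x' ∧ G.dist x' y ≤ j := by
  obtain ⟨p, hp⟩ := hc.exists_walk_length_eq_dist x y
  cases p with
  | nil =>
    rw [SimpleGraph.dist_self] at hd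
    omega
  | cons h q =>
    refine ⟨_, h, ?_⟩
    have h1 := SimpleGraph.dist_le q
    rw [SimpleGraph.Walk.length_cons, hd] at hp
    omega

theorem TL_closed {par : V → V} {w : V} {S P : Finset V} (hP : ∀ x ∈ P, x ≠ w → par x ∈ P)
    (hw : w ∈ P) (j : ℕ) : w ∈ TL par S P j ∧ ∀ x ∈ TL par S P j, x ≠ w → par x ∈ TL par S P j := by
  induction j with
  | zero => exact ⟨hw, hP⟩
  | succ j ih =>
    refine ⟨levels_mono par S P j ih.1, fun x hx hxw => ?_⟩
    rcases levels_succ hx with h | h
    · exact levels_mono par S P j (ih.2 x h hxw)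
    · exact levels_mono par S P j h.2

theorem TL_subset {par : V → V} {S P : Finset V} (hPS : P ⊆ S) (j : ℕ) : TL par S P j ⊆ S := by
  induction j with
  | zero => exact hPS
  | succ j ih => exact Finset.union_subset ih (Finset.filter_subset _ _)

theorem TL_mem {G : SimpleGraph V} (hc : G.Connected) {w : V} {par : V → V} (hp : IsPar G w par)
    {S P : Finset V} (hP : ∀ x ∈ P, x ≠ w → par x ∈ P) (hw : w ∈ P) (hPS : P ⊆ S)
    (hS : ∀ x, x ∉ S → ∀ z, G.Adj x z → z ∈ P) (j : ℕ) (x y : V) (hy : y ∈ P)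
    (hd : G.dist x y ≤ j) (hx : x ∈ S) : x ∈ TL par S P j := by
  induction j generalizing x with
  | zero =>
    have h1 : G.dist x y = 0 := Nat.le_zero.1 hd
    have h2 : x = y := hc.dist_eq_zero_iff.1 h1
    rw [h2]
    exact hy
  | succ j ih =>
    rcases Nat.lt_or_ge j (G.dist x y) with h | h
    · have h1 : G.dist x y = j + 1 := le_antisymm hd h
      obtain ⟨x', hadj, hx'⟩ := levels_nbr hc h1
      by_cases hxS : x' ∈ S
      · have h2 := ih x' hx' hxS
        rcases hp.edge x x' hadj with h3 | h3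
        · exact levels_of_par hx (h3.2 ▸ h2)
        · refine levels_mono par S P j ?_
          rw [h3.2]
          exact (TL_closed hP hw j).2 x' h2 h3.1
      · exact levels_base par S P _ (hS x' hxS x hadj.symm)
    · exact levels_mono par S P j (ih x h hx)

theorem TL_good {par : V → V} {w v : V} {S P : Finset V} (hPS : P ⊆ S) {f : V → ℤ} {lo hi : ℤ}
    (hG : Good par w (TL par S P 1) f ∅ lo hi) (hv : v ∈ P) (hfv : f v = 0) (hfw : f w = 1)
    (hE : hi - lo + 1 = (TL par S P 1).card) (j : ℕ) :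
    ∃ f' W' lo' hi', Good par w (TL par S P (j + 1)) f' W' lo' hi' ∧ f' v = 0 ∧ f' w = 1 ∧
      hi' - lo' + 1 ≤ (S.card : ℤ) ^ (j + 1) := by
  induction j with
  | zero =>
    refine ⟨f, ∅, lo, hi, hG, hfv, hfw, ?_⟩
    rw [hE, zero_add, pow_one]
    exact_mod_cast Finset.card_le_card (TL_subset hPS 1)
  | succ j ih =>
    obtain ⟨f', W', lo', hi', hG', hfv', hfw', hb⟩ := ih
    have hvT : v ∈ TL par S P (j + 1) := levels_base par S P _ hv
    have hpar : ∀ y ∈ TL par S P (j + 1 + 1) \ TL par S P (j + 1), par y ∈ TL par S P (j + 1) := by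
      intro y hy
      rw [Finset.mem_sdiff] at hy
      rcases levels_succ hy.1 with h | h
      · exact absurd h hy.2
      · exact h.2
    obtain ⟨f2, W2, lo2, hi2, hG2, hf2, hb2⟩ := good_level hG' hvT hfv'
      (TL par S P (j + 1 + 1) \ TL par S P (j + 1)) Finset.disjoint_sdiff hpar
    rw [Finset.union_sdiff_of_subset (levels_mono par S P (j + 1))] at hG2
    refine ⟨f2, W2, lo2, hi2, hG2, ?_, ?_, ?_⟩
    · rw [hf2 v hvT, hfv']
    · rw [hf2 w hG'.wS, hfw']
    · have h1 : 1 + (TL par S P (j + 1 + 1) \ TL par S P (j + 1)).card ≤ S.card := by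
        have h2 := Finset.card_sdiff_add_card_eq_card (levels_mono par S P (j + 1))
        have h3 := Finset.card_le_card (TL_subset (par := par) hPS (j + 1 + 1))
        have h4 : 0 < (TL par S P (j + 1)).card := Finset.card_pos.2 ⟨v, hvT⟩
        omega
      have h5 : (1 : ℤ) + ((TL par S P (j + 1 + 1) \ TL par S P (j + 1)).card : ℤ) ≤ S.card := by
        exact_mod_cast h1
      calc hi2 - lo2 + 1 ≤ (hi' - lo' + 1) *
            (1 + ((TL par S P (j + 1 + 1) \ TL par S P (j + 1)).card : ℤ)) := hb2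
        _ ≤ (S.card : ℤ) ^ (j + 1) *
            (1 + ((TL par S P (j + 1 + 1) \ TL par S P (j + 1)).card : ℤ)) :=
          mul_le_mul_of_nonneg_right hb (by positivity)
        _ ≤ (S.card : ℤ) ^ (j + 1) * S.card := mul_le_mul_of_nonneg_left h5 (by positivity)
        _ = (S.card : ℤ) ^ (j + 1 + 1) := (pow_succ _ _).symm

end Pool.Agent.H67.Lob
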