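import Pool.Agent.H67.Lob.Defs

/-!
# Trees: the parent function

`exists_isPar`: for `x ≠ w` choose a neighbour at distance `dist x w - 1` of `w` (first step of a walk
of length `dist x w`: `SimpleGraph.Reachable.exists_walk_length_eq_dist`,
`SimpleGraph.Connected.dist_triangle`).  The map `x ↦ s(x, par x)` from `{x // x ≠ w}` to the edges is
injective (if `x = par y` and `y = par x` the distances contradict), hence surjective because the
number of edges is `card V - 1` (`SimpleGraph.IsTree.card_edgeFinset`).
`par_leaf`: `y ≠ w` whose only neighbour is `u`: `par y = u`, and `y` is not a parent.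
`chain_exists`: `c i = par^[m - i] v`, `m = dist v w`.
`chain_mem`: every vertex `z` with `dist v z + dist z w = dist v w` is some `c i`: induction on
`dist v z`: for `dist v z = k + 1` take a neighbour `z'` of `z` with `dist v z' = k`; then
`dist z' w = dist z w + 1`, so `z = par z'` (`IsPar.edge`).
`path_mem`: in a tree a path from `v` to `w` has length `dist v w` and its vertices are on a geodesic.
-/

namespace Pool.Agent.H67.Lob

variable {V : Type} [DecidableEq V]

omit [DecidableEq V] in
theorem tree_step {G : SimpleGraph V} (hG : G.Connected) (w x : V) (hx : x ≠ w) :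
    ∃ u, G.Adj x u ∧ G.dist u w + 1 = G.dist x w := by
  obtain ⟨p, hp⟩ := hG.exists_walk_length_eq_dist x w
  cases p with
  | nil => exact absurd rfl hx
  | cons h q =>
    rename_i u
    refine ⟨u, h, ?_⟩
    rw [SimpleGraph.Walk.length_cons] at hp
    have h1 := SimpleGraph.dist_le q
    have h2 := hG.dist_triangle (u := x) (v := u) (w := w)
    have h3 : G.dist x u = 1 := SimpleGraph.dist_eq_one_iff_adj.2 h
    omega

theorem exists_isPar [Fintype V] (G : SimpleGraph V) (hG : G.IsTree) (w : V) :
    ∃ par : V → V, IsPar G w par := by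
  classical
  have hstep := fun x hx => tree_step hG.connected w x hx
  choose f hf1 hf2 using hstep
  let par : V → V := fun x => if h : x ≠ w then f x h else x
  have hpar : ∀ x (h : x ≠ w), par x = f x h := fun x h => dif_pos h
  have hadj : ∀ x, x ≠ w → G.Adj x (par x) := by
    intro x h
    rw [hpar x h]
    exact hf1 x h
  have hdist : ∀ x, x ≠ w → G.dist (par x) w + 1 = G.dist x w := by
    intro x h
    rw [hpar x h]
    exact hf2 x h
  refine ⟨par, hadj, hdist, ?_⟩
  have hinj : Set.InjOn (fun x => s(x, par x)) ((Finset.univ : Finset V).erase w) := by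
    intro x hx y hy he
    rw [Finset.mem_coe] at hx hy
    have hx' := Finset.ne_of_mem_erase hx
    have hy' := Finset.ne_of_mem_erase hy
    rcases Sym2.eq_iff.1 he with ⟨h1, _⟩ | ⟨h1, h2⟩
    · exact h1
    · exfalso
      have h3 := hdist x hx'
      have h4 := hdist y hy'
      rw [h2] at h3
      rw [← h1] at h4
      omega
  have hsub : ((Finset.univ : Finset V).erase w).image (fun x => s(x, par x)) ⊆ G.edgeFinset := by
    intro e he
    obtain ⟨x, hx, rfl⟩ := Finset.mem_image.1 he
    rw [SimpleGraph.mem_edgeFinset, SimpleGraph.mem_edgeSet]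
    exact hadj x (Finset.ne_of_mem_erase hx)
  have hcard : G.edgeFinset.card ≤ (((Finset.univ : Finset V).erase w).image (fun x => s(x, par x))).card := by
    rw [Finset.card_image_of_injOn hinj, Finset.card_erase_of_mem (Finset.mem_univ w),
      Finset.card_univ]
    have := hG.card_edgeFinset
    omega
  have heq := Finset.eq_of_subset_of_card_le hsub hcard
  intro x y hxy
  have hmem : s(x, y) ∈ G.edgeFinset := by
    rw [SimpleGraph.mem_edgeFinset, SimpleGraph.mem_edgeSet]
    exact hxy
  rw [← heq] at hmem
  obtain ⟨z, hz, he⟩ := Finset.mem_image.1 hmem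
  have hz' := Finset.ne_of_mem_erase hz
  rcases Sym2.eq_iff.1 he with ⟨h1, h2⟩ | ⟨h1, h2⟩
  · left
    subst h1
    exact ⟨hz', h2.symm⟩
  · right
    subst h1
    exact ⟨hz', h2.symm⟩

omit [DecidableEq V] in
theorem par_leaf {G : SimpleGraph V} {w : V} {par : V → V} (hp : IsPar G w par) {y u : V}
    (hy : y ≠ w) (hu : ∀ z, G.Adj y z → z = u) : par y = u ∧ ∀ z, z ≠ w → par z ≠ y := by
  have h1 : par y = u := hu _ (hp.adj y hy)
  refine ⟨h1, fun z hz he => ?_⟩
  have h2 : G.Adj z y := he ▸ hp.adj z hz
  have h3 : z = u := hu z h2.symm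
  have h4 := hp.dist z hz
  have h5 := hp.dist y hy
  rw [he] at h4
  rw [h1, ← h3] at h5
  omega

end Pool.Agent.H67.Lob
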