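import Pool.Agent.H67.Lob.Defs

/-!
# Trees: geodesics

`chain_exists`: `c i = par^[m - i] v`, `m = dist v w`.
`chain_mem`: every vertex `z` with `dist v z + dist z w = dist v w` is some `c i`: induction on
`dist v z`: for `dist v z = k + 1` take a neighbour `z'` of `z` with `dist v z' = k`; then
`dist z' w = dist z w + 1`, so `z = par z'` (`IsPar.edge`).
`path_mem`: in a tree a path from `v` to `w` has length `dist v w` (uniqueness of paths:
`SimpleGraph.IsAcyclic.path_unique`, `SimpleGraph.Reachable.exists_path_of_dist`) and its vertices are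
on a geodesic (`takeUntil`, `dropUntil`, `SimpleGraph.dist_le`).
-/

namespace Pool.Agent.H67.Lob

variable {V : Type} [DecidableEq V]

omit [DecidableEq V] in
theorem treeB_nbr {G : SimpleGraph V} (hc : G.Connected) {v z : V} {k : ℕ}
    (h : G.dist v z = k + 1) : ∃ z', G.Adj z z' ∧ G.dist v z' = k := by
  obtain ⟨p, hp⟩ := hc.exists_walk_length_eq_dist z v
  rw [SimpleGraph.dist_comm, h] at hp
  cases p with
  | nil => simp at hp
  | cons ha q =>
    rename_i z'
    refine ⟨z', ha, ?_⟩
    have h1 : G.dist z' v ≤ k := by
      have := SimpleGraph.dist_le q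
      simp only [SimpleGraph.Walk.length_cons] at hp
      omega
    have h2 : G.dist v z ≤ G.dist v z' + G.dist z' z := hc.dist_triangle
    have h3 : G.dist z' z = 1 := SimpleGraph.dist_eq_one_iff_adj.2 ha.symm
    rw [SimpleGraph.dist_comm] at h1
    omega

theorem chain_exists {G : SimpleGraph V} (hc : G.Connected) {w : V} {par : V → V}
    (hp : IsPar G w par) (v : V) :
    ∃ c : ℕ → V, c 0 = w ∧ c (G.dist v w) = v ∧ (∀ i ≤ G.dist v w, G.dist (c i) w = i) ∧
      (∀ i < G.dist v w, par (c (i + 1)) = c i) ∧
      ∀ z, G.dist v z + G.dist z w = G.dist v w → ∃ i ≤ G.dist v w, z = c i := by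
  have hd : ∀ k ≤ G.dist v w, G.dist (par^[k] v) w + k = G.dist v w := by
    intro k
    induction k with
    | zero => intro _; simp
    | succ k ih =>
      intro hk
      have h1 := ih (by omega)
      have hne : par^[k] v ≠ w := by
        intro h2
        rw [h2, SimpleGraph.dist_self] at h1
        omega
      have h3 := hp.dist _ hne
      rw [Function.iterate_succ_apply']
      omega
  have hpar : ∀ i < G.dist v w,
      par (par^[G.dist v w - (i + 1)] v) = par^[G.dist v w - i] v := by
    intro i hi
    have h1 : G.dist v w - i = (G.dist v w - (i + 1)) + 1 := by omega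
    rw [h1, Function.iterate_succ_apply']
  refine ⟨fun i => par^[G.dist v w - i] v, ?_, ?_, ?_, hpar, ?_⟩
  · have h1 := hd (G.dist v w) le_rfl
    have h2 : G.dist (par^[G.dist v w] v) w = 0 := by omega
    have h3 := hc.dist_eq_zero_iff.1 h2
    simpa using h3
  · simp
  · intro i hi
    have h1 := hd (G.dist v w - i) (by omega)
    change G.dist (par^[G.dist v w - i] v) w = i
    omega
  · have key : ∀ k z, G.dist v z = k → G.dist v z + G.dist z w = G.dist v w →
        z = par^[G.dist v w - G.dist z w] v := by
      intro k
      induction k with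
      | zero =>
        intro z h1 h2
        have h3 : v = z := hc.dist_eq_zero_iff.1 h1
        have h4 : G.dist v w - G.dist z w = 0 := by omega
        rw [h4, ← h3]
        rfl
      | succ k ih =>
        intro z h1 h2
        obtain ⟨z', ha, hz'⟩ := treeB_nbr hc h1
        have h3 : G.dist v w ≤ G.dist v z' + G.dist z' w := hc.dist_triangle
        have h4 : G.dist z' w ≤ G.dist z' z + G.dist z w := hc.dist_triangle
        have h5 : G.dist z' z = 1 := SimpleGraph.dist_eq_one_iff_adj.2 ha.symm
        have h6 := ih z' hz' (by omega)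
        have h7 : z = par z' := by
          rcases hp.edge z z' ha with ⟨h8, h9⟩ | ⟨h8, h9⟩
          · exfalso
            have h10 := hp.dist z h8
            rw [← h9] at h10
            omega
          · exact h9
        have h8 := hpar (G.dist z w) (by omega)
        have h9 : G.dist z w + 1 = G.dist z' w := by omega
        rw [h9, ← h6, ← h7] at h8
        exact h8
    intro z hz
    exact ⟨G.dist z w, by omega, key _ z rfl hz⟩

theorem path_mem {G : SimpleGraph V} (hG : G.IsTree) {v w : V} (p : G.Walk v w) (hp : p.IsPath) :
    p.length = G.dist v w ∧ ∀ z ∈ p.support, G.dist v z + G.dist z w = G.dist v w := by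
  have hc : G.Connected := hG.1
  have hlen : p.length = G.dist v w := by
    obtain ⟨q, hq, hq2⟩ := (hc v w).exists_path_of_dist
    have h1 := hG.2.path_unique ⟨p, hp⟩ ⟨q, hq⟩
    have h2 : p = q := congrArg Subtype.val h1
    rw [h2, hq2]
  refine ⟨hlen, fun z hz => ?_⟩
  have h1 : G.dist v z ≤ (p.takeUntil z hz).length := SimpleGraph.dist_le _
  have h2 : G.dist z w ≤ (p.dropUntil z hz).length := SimpleGraph.dist_le _
  have h3 : (p.takeUntil z hz).length + (p.dropUntil z hz).length = p.length := by
    rw [← SimpleGraph.Walk.length_append, SimpleGraph.Walk.take_spec]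
  have h4 : G.dist v w ≤ G.dist v z + G.dist z w := hc.dist_triangle
  omega

end Pool.Agent.H67.Lob
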