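import Pool.Agent.H67.Lob.Levels
import Pool.Agent.H67.Lob.Chain
import Pool.Agent.H67.Lob.CoreB
import Pool.Agent.H67.Lob.Fin
import Pool.Agent.H67.Lob.Tree
import Pool.Agent.H67.Lob.TreeB

/-!
# Trees with two vertices with many leaves
-/

namespace Pool.Agent.H67.Lob

variable {V : Type}

theorem TL_near [DecidableEq V] {G : SimpleGraph V} (hc : G.Connected) {w : V} {par : V → V}
    (hp : IsPar G w par) {S P : Finset V} (hw : w ∈ P) (hPS : P ⊆ S) (j : ℕ) :
    ∀ x ∈ TL par S P j, x ∈ S ∧ ∃ y ∈ P, G.dist x y ≤ j := by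
  induction j with
  | zero =>
    intro x hx
    exact ⟨hPS hx, x, hx, by rw [SimpleGraph.dist_self]⟩
  | succ j ih =>
    intro x hx
    simp only [TL, Finset.mem_union, Finset.mem_filter] at hx
    rcases hx with hx | ⟨hx, hx'⟩
    · obtain ⟨h1, y, hy, h2⟩ := ih x hx
      exact ⟨h1, y, hy, by omega⟩
    · refine ⟨hx, ?_⟩
      by_cases hxw : x = w
      · exact ⟨w, hw, by rw [hxw, SimpleGraph.dist_self]; omega⟩
      · obtain ⟨-, y, hy, h2⟩ := ih _ hx'
        refine ⟨y, hy, ?_⟩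
        have h3 : G.dist x y ≤ G.dist x (par x) + G.dist (par x) y := hc.dist_triangle
        have h4 : G.dist x (par x) = 1 := SimpleGraph.dist_eq_one_iff_adj.2 (hp.adj x hxw)
        omega

/-- product bound -/
theorem TL_prod [DecidableEq V] {par : V → V} {w v : V} {S P : Finset V} {f : V → ℤ} {lo hi : ℤ}
    (hG : Good par w (TL par S P 1) f ∅ lo hi) (hv : v ∈ P) (hfv : f v = 0) (hfw : f w = 1)
    (hE : hi - lo + 1 = (TL par S P 1).card) (j : ℕ) :
    ∃ f' W' lo' hi', Good par w (TL par S P (j + 1)) f' W' lo' hi' ∧ f' v = 0 ∧ f' w = 1 ∧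
      hi' - lo' + 1 ≤ (((TL par S P 1).card *
        ∏ i ∈ Finset.Ico 1 (j + 1), (1 + (TL par S P (i + 1) \ TL par S P i).card) : ℕ) : ℤ) := by
  have hvT : ∀ i, v ∈ TL par S P i := by
    intro i
    induction i with
    | zero => exact hv
    | succ i ih => exact Finset.mem_union_left _ ih
  induction j with
  | zero =>
    refine ⟨f, ∅, lo, hi, hG, hfv, hfw, ?_⟩
    rw [hE]
    simp
  | succ j ih =>
    obtain ⟨f', W', lo', hi', h1, h2, h3, h4⟩ := ih
    obtain ⟨f'', W'', lo'', hi'', k1, k2, k3⟩ := good_level h1 (hvT (j + 1)) h2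
      (TL par S P (j + 2) \ TL par S P (j + 1)) Finset.disjoint_sdiff
      (by
        intro y hy
        rw [Finset.mem_sdiff] at hy
        have h5 := hy.1
        simp only [TL] at h5 hy ⊢
        rw [Finset.mem_union] at h5
        rcases h5 with h5 | h5
        · exact absurd h5 hy.2
        · exact (Finset.mem_filter.1 h5).2)
    have hT : TL par S P (j + 1) ∪ (TL par S P (j + 2) \ TL par S P (j + 1)) =
        TL par S P (j + 2) := by
      rw [Finset.union_sdiff_of_subset]
      exact Finset.subset_union_left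
    rw [hT] at k1
    refine ⟨f'', W'', lo'', hi'', k1, ?_, ?_, ?_⟩
    · rw [k2 v (hvT _), h2]
    · rw [k2 w h1.wS, h3]
    · refine k3.trans ?_
      rw [Finset.prod_Ico_succ_top (by omega : 1 ≤ j + 1), ← mul_assoc, Nat.cast_mul]
      have h6 : ((1 + (TL par S P (j + 1 + 1) \ TL par S P (j + 1)).card : ℕ) : ℤ) =
          1 + ((TL par S P (j + 2) \ TL par S P (j + 1)).card : ℤ) := by push_cast; rfl
      rw [h6]
      exact mul_le_mul_of_nonneg_right h4 (by positivity)

/-- the leaves attached to `v`, other than `w` -/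
def leavesAt (G : SimpleGraph V) (v w : V) : Set V :=
  {x | x ≠ w ∧ G.Adj v x ∧ ∀ z, G.Adj x z → z = v}

/-- the vertices at distance at most `j` from the path `p`, without the leaves attached to the two
ends of `p` -/
def near (G : SimpleGraph V) {v w : V} (p : G.Walk v w) (j : ℕ) : Set V :=
  {x | x ∉ leavesAt G v w ∧ x ∉ leavesAt G w v ∧ ∃ y ∈ p.support, G.dist x y ≤ j}

theorem main_good [DecidableEq V] [Fintype V] (G : SimpleGraph V) (hG : G.IsTree) (v w : V)
    (p : G.Walk v w) (hp : p.IsPath) (hodd : Odd p.length) (d : ℕ) (hd1 : 1 ≤ d)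
    (hd : ∀ x, ∃ y ∈ p.support, G.dist x y ≤ d) (A B : Finset V)
    (hA : ∀ x ∈ A, x ≠ w ∧ G.Adj v x ∧ ∀ z, G.Adj x z → z = v)
    (hB : ∀ x ∈ B, x ≠ v ∧ G.Adj w x ∧ ∀ z, G.Adj x z → z = w)
    (hA' : (A : Set V) = leavesAt G v w) (hB' : (B : Set V) = leavesAt G w v)
    (hAr : (near G p 1).ncard * ∏ i ∈ Finset.Ico 1 d, (1 + (near G p (i + 1) \ near G p i).ncard)
      ≤ A.card)
    (hBr : (near G p 1).ncard * ∏ i ∈ Finset.Ico 1 d, (1 + (near G p (i + 1) \ near G p i).ncard)
      ≤ B.card) :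
    ∃ f : V → ZMod (Fintype.card V - 1), Function.Surjective f ∧
      ∀ a b x y : V, G.Adj a b → G.Adj x y → f a + f b = f x + f y → s(a, b) = s(x, y) := by
  classical
  obtain ⟨par, hpar⟩ := exists_isPar G hG w
  obtain ⟨hlen, hsup⟩ := path_mem hG p hp
  obtain ⟨c, hc0, hcm, hcd, hcp, hcg⟩ := chain_exists hG.connected hpar v
  set m := G.dist v w with hm
  have hmodd : Odd m := by rw [← hlen]; exact hodd
  have hvw : v ≠ w := by
    rintro rfl
    rw [SimpleGraph.dist_self] at hm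
    rw [hm] at hmodd
    exact absurd hmodd (by decide)
  have hparA : ∀ x ∈ A, par x = v ∧ ∀ z, z ≠ w → par z ≠ x := fun x hx =>
    par_leaf hpar (hA x hx).1 (hA x hx).2.2
  have hBw : ∀ x ∈ B, x ≠ w := by
    intro x hx h
    exact G.loopless.irrefl w (by have := (hB x hx).2.1; rwa [h] at this)
  have hparB : ∀ x ∈ B, par x = w ∧ ∀ z, z ≠ w → par z ≠ x := fun x hx =>
    par_leaf hpar (hBw x hx) (hB x hx).2.2
  have hAv : ∀ x ∈ A, x ≠ v := by
    intro x hx h
    exact G.loopless.irrefl v (by have := (hA x hx).2.1; rwa [h] at this)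
  have hAB : Disjoint A B := by
    rw [Finset.disjoint_left]
    intro x h1 h2
    exact hvw ((hparA x h1).1.symm.trans (hparB x h2).1)
  set S : Finset V := Finset.univ \ (A ∪ B) with hS
  have memS : ∀ x, x ∈ S ↔ x ∉ A ∧ x ∉ B := by
    intro x; rw [hS]; simp
  have hvS : v ∈ S := (memS v).2 ⟨fun h => hAv v h rfl, fun h => (hB v h).1 rfl⟩
  have hwS : w ∈ S := (memS w).2 ⟨fun h => (hA w h).1 rfl, fun h => hBw w h rfl⟩
  have hclS : ∀ x, x ≠ w → par x ∈ S := fun x hx =>
    (memS _).2 ⟨fun h => (hparA _ h).2 x hx rfl, fun h => (hparB _ h).2 x hx rfl⟩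
  have hSA : Disjoint S A := by
    rw [Finset.disjoint_left]; intro x h1 h2; exact ((memS x).1 h1).1 h2
  have hSB : Disjoint S B := by
    rw [Finset.disjoint_left]; intro x h1 h2; exact ((memS x).1 h1).2 h2
  have hU : S ∪ A ∪ B = Finset.univ := by
    ext x
    simp only [Finset.mem_union, Finset.mem_univ, iff_true, memS]
    tauto
  have hcard : S.card + A.card + B.card = Fintype.card V := by
    rw [← Finset.card_univ, ← hU, Finset.card_union_of_disjoint, Finset.card_union_of_disjoint hSA]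
    rw [Finset.disjoint_union_left]
    exact ⟨hSB, hAB⟩
  -- the chain
  set P : Finset V := (Finset.range (m + 1)).image c with hP
  have memP : ∀ x, x ∈ P ↔ ∃ i ≤ m, x = c i := by
    intro x
    rw [hP, Finset.mem_image]
    constructor
    · rintro ⟨i, hi, rfl⟩
      exact ⟨i, by simpa [Nat.lt_succ_iff] using hi, rfl⟩
    · rintro ⟨i, hi, rfl⟩
      exact ⟨i, by simpa [Nat.lt_succ_iff] using hi, rfl⟩
  have hinj : ∀ i ≤ m, ∀ j ≤ m, c i = c j → i = j := by
    intro i hi j hj h
    rw [← hcd i hi, ← hcd j hj, h]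
  have hcS : ∀ i ≤ m, c i ∈ S := by
    intro i hi
    rcases Nat.lt_or_ge i m with h | h
    · rw [← hcp i h]
      refine hclS _ fun h' => ?_
      have h1 := hcd (i + 1) h
      rw [h', SimpleGraph.dist_self] at h1
      omega
    · have : i = m := le_antisymm hi h
      rw [this, hcm]
      exact hvS
  have hcw : ∀ i ≤ m, 0 < i → c i ≠ w := by
    intro i hi h0 h
    have h1 := hcd i hi
    rw [h, SimpleGraph.dist_self] at h1
    omega
  have hwP : w ∈ P := (memP w).2 ⟨0, Nat.zero_le _, hc0.symm⟩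
  have hvP : v ∈ P := (memP v).2 ⟨m, le_rfl, hcm.symm⟩
  have hPS : P ⊆ S := by
    intro x hx
    obtain ⟨i, hi, rfl⟩ := (memP x).1 hx
    exact hcS i hi
  have hPcl : ∀ x ∈ P, x ≠ w → par x ∈ P := by
    intro x hx hxw
    obtain ⟨i, hi, rfl⟩ := (memP x).1 hx
    rcases Nat.eq_zero_or_pos i with h0 | h0
    · rw [h0, hc0] at hxw
      exact absurd rfl hxw
    · obtain ⟨k, rfl⟩ : ∃ k, i = k + 1 := ⟨i - 1, by omega⟩
      rw [hcp k (by omega)]
      exact (memP _).2 ⟨k, by omega, rfl⟩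
  -- classes
  let cl : V → Bool := fun x => decide (G.dist x w % 2 = 0)
  have hcl : ∀ x ∈ S, x ≠ w → cl x ≠ cl (par x) := by
    intro x _ hxw
    have h1 := hpar.dist x hxw
    show decide (G.dist x w % 2 = 0) ≠ decide (G.dist (par x) w % 2 = 0)
    intro h
    have h2 := decide_eq_decide.1 h
    omega
  have hclv : cl (c m) ≠ cl w := by
    rw [hcm]
    show decide (G.dist v w % 2 = 0) ≠ decide (G.dist w w % 2 = 0)
    rw [SimpleGraph.dist_self, ← hm]
    intro h
    have h2 := decide_eq_decide.1 h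
    obtain ⟨k, hk⟩ := hmodd
    omega
  obtain ⟨g, a, b, hcore⟩ := core_chain c m hwS hcl hc0 hcS hcw hinj hcp
  have hT1 : S.filter (fun x => x = w ∨ par x ∈ (Finset.range (m + 1)).image c) =
      TL par S P 1 := by
    ext x
    simp only [TL, Finset.mem_union, Finset.mem_filter]
    rw [← hP]
    constructor
    · rintro ⟨h1, h2 | h2⟩
      · left; rw [h2]; exact hwP
      · right; exact ⟨h1, h2⟩
    · rintro (h1 | ⟨h1, h2⟩)
      · refine ⟨hPS h1, ?_⟩
        by_cases hxw : x = w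
        · exact Or.inl hxw
        · exact Or.inr (hPcl x h1 hxw)
      · exact ⟨h1, Or.inr h2⟩
  rw [hT1, hcm] at hcore
  rw [hcm] at hclv
  have hT1S : TL par S P 1 ⊆ S := TL_subset hPS 1
  obtain ⟨f, hGood, hfv, hfw, hE⟩ := core_good hcore hclv
    (fun x hx hxw => hcl x (hT1S hx) hxw)
  obtain ⟨j, rfl⟩ : ∃ j, d = j + 1 := ⟨d - 1, by omega⟩
  obtain ⟨f', W', lo', hi', hGood', hfv', hfw', hE'⟩ :=
    TL_prod hGood hvP hfv hfw hE j
  have hleaf : ∀ x, x ∉ S → ∀ z, G.Adj x z → z ∈ P := by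
    intro x hx z hz
    rw [memS, not_and_or, not_not, not_not] at hx
    rcases hx with hx | hx
    · rw [(hA x hx).2.2 z hz]; exact hvP
    · rw [(hB x hx).2.2 z hz]; exact hwP
  have hTS : TL par S P (j + 1) = S := by
    refine Finset.Subset.antisymm (TL_subset hPS _) ?_
    intro x hx
    obtain ⟨y, hy, hxy⟩ := hd x
    obtain ⟨i, hi, hyi⟩ := hcg y (hsup y hy)
    exact TL_mem hG.connected hpar hPcl hwP hPS hleaf (j + 1) x y ((memP y).2 ⟨i, hi, hyi⟩) hxy hx
  -- the support of `p`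
  have hPsup : p.support.toFinset = P := by
    refine Finset.eq_of_subset_of_card_le ?_ ?_
    · intro y hy
      obtain ⟨i, hi, hyi⟩ := hcg y (hsup y (List.mem_toFinset.1 hy))
      exact (memP y).2 ⟨i, hi, hyi⟩
    · rw [List.toFinset_card_of_nodup hp.support_nodup, SimpleGraph.Walk.length_support, hlen]
      refine Finset.card_image_le.trans ?_
      rw [Finset.card_range]
  have hnear : ∀ i, near G p i = (TL par S P i : Set V) := by
    intro i
    ext x
    rw [Finset.mem_coe]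
    constructor
    · rintro ⟨h1, h2, y, hy, h3⟩
      rw [← hA'] at h1
      rw [← hB'] at h2
      refine TL_mem hG.connected hpar hPcl hwP hPS hleaf i x y ?_ h3 ((memS x).2 ⟨h1, h2⟩)
      rw [← hPsup]
      exact List.mem_toFinset.2 hy
    · intro hx
      obtain ⟨h1, y, hy, h2⟩ := TL_near hG.connected hpar hwP hPS i x hx
      refine ⟨?_, ?_, y, ?_, h2⟩
      · rw [← hA']; exact ((memS x).1 h1).1
      · rw [← hB']; exact ((memS x).1 h1).2
      · rw [← hPsup] at hy
        exact List.mem_toFinset.1 hy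
  have hbound : (near G p 1).ncard * ∏ i ∈ Finset.Ico 1 (j + 1),
      (1 + (near G p (i + 1) \ near G p i).ncard) = (TL par S P 1).card *
        ∏ i ∈ Finset.Ico 1 (j + 1), (1 + (TL par S P (i + 1) \ TL par S P i).card) := by
    rw [hnear 1, Set.ncard_coe_finset]
    congr 1
    refine Finset.prod_congr rfl fun i _ => ?_
    rw [hnear, hnear, ← Finset.coe_sdiff, Set.ncard_coe_finset]
  rw [hbound] at hAr hBr
  rw [hTS] at hGood'
  -- extra leaves
  have hWc := good_card hGood'
  have hS1 : 1 ≤ S.card := Finset.card_pos.2 ⟨w, hwS⟩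
  have hAr' := hE'.trans (Nat.cast_le.2 hAr)
  have hBr' := hE'.trans (Nat.cast_le.2 hBr)
  have hWB : W'.card ≤ B.card := by
    have : (W'.card : ℤ) ≤ B.card := by
      have : (0 : ℤ) ≤ S.card := Nat.cast_nonneg _
      linarith
    exact_mod_cast this
  obtain ⟨B1, hB1, hB1c⟩ := Finset.exists_subset_card_eq hWB
  obtain ⟨F, hGF, hFS⟩ := good_extra hGood' hfw' (B \ B1)
    (Finset.disjoint_of_subset_right Finset.sdiff_subset hSB)
    (fun y hy => (hparB y (Finset.mem_sdiff.1 hy).1).1)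
  have hcB : ((B \ B1).card : ℤ) = B.card - W'.card := by
    rw [Finset.card_sdiff_of_subset hB1, hB1c, Nat.cast_sub hWB]
  obtain ⟨Φ, hΦs, hΦ⟩ := good_final hGF (v := v) (Finset.mem_union_left _ hvS)
    (by rw [hFS v hvS, hfv']) (by rw [hFS w hwS, hfw']) A B1
    (by
      rw [Finset.disjoint_union_left]
      exact ⟨hSA, Finset.disjoint_of_subset_left Finset.sdiff_subset hAB.symm⟩)
    (by
      rw [Finset.disjoint_union_left]
      exact ⟨Finset.disjoint_of_subset_right hB1 hSB, Finset.sdiff_disjoint⟩)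
    (Finset.disjoint_of_subset_right hB1 hAB)
    (by
      ext x
      simp only [Finset.mem_union, Finset.mem_sdiff, Finset.mem_univ, iff_true, memS]
      tauto)
    (fun x hx => (hparA x hx).1) (fun x hx => (hparB x (hB1 hx)).1) hB1c
    (by
      rw [hcB]
      have h1 : (S.card : ℤ) + A.card + B.card = Fintype.card V := by exact_mod_cast hcard
      have h2 : (1 : ℤ) ≤ S.card := by exact_mod_cast hS1
      have h3 : (0 : ℤ) ≤ W'.card := Nat.cast_nonneg _
      linarith)
  refine ⟨Φ, hΦs, ?_⟩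
  -- edges
  have hedge : ∀ x y, G.Adj x y → ∃ u, u ≠ w ∧ s(x, y) = s(u, par u) ∧ Φ x + Φ y = Φ u + Φ (par u) := by
    intro x y hxy
    rcases hpar.edge x y hxy with ⟨h1, h2⟩ | ⟨h1, h2⟩
    · exact ⟨x, h1, by rw [h2], by rw [h2]⟩
    · exact ⟨y, h1, by rw [h2, Sym2.eq_swap], by rw [h2, add_comm]⟩
  intro a b x y hab hxy h
  obtain ⟨u, hu, hu1, hu2⟩ := hedge a b hab
  obtain ⟨u', hu', hu1', hu2'⟩ := hedge x y hxy
  rw [hu1, hu1', hΦ u u' hu hu' (by rw [← hu2, ← hu2', h])]

theorem main_thm [Fintype V] (G : SimpleGraph V) (hG : G.IsTree) (v w : V)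
    (p : G.Walk v w) (hp : p.IsPath) (hodd : Odd p.length) (d : ℕ) (hd1 : 1 ≤ d)
    (hd : ∀ x, ∃ y ∈ p.support, G.dist x y ≤ d)
    (hv : (near G p 1).ncard * ∏ i ∈ Finset.Ico 1 d, (1 + (near G p (i + 1) \ near G p i).ncard)
      ≤ (leavesAt G v w).ncard)
    (hw : (near G p 1).ncard * ∏ i ∈ Finset.Ico 1 d, (1 + (near G p (i + 1) \ near G p i).ncard)
      ≤ (leavesAt G w v).ncard) :
    ∃ f : V → ZMod (Fintype.card V - 1), Function.Surjective f ∧
      ∀ a b x y : V, G.Adj a b → G.Adj x y → f a + f b = f x + f y → s(a, b) = s(x, y) := by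
  classical
  have hA : ((leavesAt G v w).toFinset : Set V) = leavesAt G v w := Set.coe_toFinset _
  have hB : ((leavesAt G w v).toFinset : Set V) = leavesAt G w v := Set.coe_toFinset _
  refine main_good G hG v w p hp hodd d hd1 hd (leavesAt G v w).toFinset (leavesAt G w v).toFinset
    (fun x hx => ?_) (fun x hx => ?_) hA hB ?_ ?_
  · have h : x ∈ leavesAt G v w := Set.mem_toFinset.1 hx
    exact h
  · have h : x ∈ leavesAt G w v := Set.mem_toFinset.1 hx
    exact h
  · rwa [← Set.ncard_coe_finset, hA]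
  · rwa [← Set.ncard_coe_finset, hB]

end Pool.Agent.H67.Lob
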