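import Pool.Agent.H67.Lob.Defs

/-!
# Adding a leaf at a vertex with positive label

`c = f (par y) > 0`: the new label is `lo - c`, the new sum is `lo`, `W` is unchanged; the new lower
end is `lo - c`.  All old labels, sums, elements of `W` and of `W + 1` are `≥ lo` (from `bd` and
`eqn`), `lo` is a label or in `W` by `eqn`, and not a sum or in `W+1`.
`Function.update f y _` agrees with `f` on `S` (`y ∉ S`), and `par x ∈ S` for `x ∈ S`, `x ≠ w`.
-/

namespace Pool.Agent.H67.Lob

variable {V : Type} [DecidableEq V]

theorem good_left {par : V → V} {w : V} {S : Finset V} {f : V → ℤ} {W : Finset ℤ} {lo hi : ℤ}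
    (hG : Good par w S f W lo hi) {y : V} (hy : y ∉ S) (hp : par y ∈ S) (hc : 0 < f (par y)) :
    Good par w (insert y S) (Function.update f y (lo - f (par y))) W (lo - f (par y)) hi := by
  have hwy : w ≠ y := fun h => hy (h ▸ hG.wS)
  have hne : ∀ x ∈ S, x ≠ y := fun x hx h => hy (h ▸ hx)
  set c := f (par y) with hcd
  set f' := Function.update f y (lo - c) with hf'
  have hfS : ∀ x ∈ S, f' x = f x := fun x hx => Function.update_of_ne (hne x hx) _ _
  have hfy : f' y = lo - c := Function.update_self _ _ _
  have hbl : ∀ z ∈ S.image f ∪ W, lo ≤ z := fun z hz => (Finset.mem_Icc.mp (hG.bd hz)).1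
  have hbs : ∀ z ∈ (S.erase w).image (sg par f) ∪ W.image (· + 1), lo ≤ z := fun z hz =>
    hbl z (hG.eqn ▸ Finset.mem_insert_of_mem hz)
  have img : (insert y S).image f' = insert (lo - c) (S.image f) := by
    rw [Finset.image_insert, hfy]
    congr 1
    exact Finset.image_congr (fun x hx => hfS x hx)
  have er : (insert y S).erase w = insert y (S.erase w) :=
    Finset.erase_insert_of_ne hwy.symm
  have hsS : ∀ x ∈ S.erase w, sg par f' x = sg par f x := by
    intro x hx
    have hx' := Finset.mem_erase.mp hx
    rw [sg, sg, hfS x hx'.2, hfS _ (hG.clS x hx'.2 hx'.1)]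
  have hsy : sg par f' y = lo := by
    rw [sg, hfy, hfS _ hp, ← hcd]
    ring
  have simg : ((insert y S).erase w).image (sg par f') =
      insert lo ((S.erase w).image (sg par f)) := by
    rw [er, Finset.image_insert, hsy]
    congr 1
    exact Finset.image_congr (fun x hx => hsS x hx)
  refine ⟨Finset.mem_insert_of_mem hG.wS, ?_, ?_, ?_, ?_, ?_, ?_, ?_, ?_⟩
  · intro x hx hxw
    rcases Finset.mem_insert.mp hx with rfl | hx
    · exact Finset.mem_insert_of_mem hp
    · exact Finset.mem_insert_of_mem (hG.clS x hx hxw)
  · intro x hx z hz hxz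
    rw [Finset.mem_coe, Finset.mem_insert] at hx hz
    have hlt : ∀ u ∈ S, f' y < f' u := by
      intro u hu
      rw [hfy, hfS u hu]
      have := hbl (f u) (Finset.mem_union_left _ (Finset.mem_image_of_mem f hu))
      linarith
    rcases hx with rfl | hx
    · rcases hz with rfl | hz
      · rfl
      · exact absurd hxz (hlt z hz).ne
    · rcases hz with rfl | hz
      · exact absurd hxz (hlt x hx).ne'
      · rw [hfS x hx, hfS z hz] at hxz
        exact hG.inj hx hz hxz
  · rw [er]
    intro x hx z hz hxz
    rw [Finset.mem_coe, Finset.mem_insert] at hx hz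
    have hno : ∀ u ∈ S.erase w, sg par f' u ≠ lo := by
      intro u hu h
      rw [hsS u hu] at h
      exact hG.loS (Finset.mem_union_left _ (Finset.mem_image.mpr ⟨u, hu, h⟩))
    rcases hx with rfl | hx
    · rcases hz with rfl | hz
      · rfl
      · rw [hsy] at hxz
        exact absurd hxz.symm (hno z hz)
    · rcases hz with rfl | hz
      · rw [hsy] at hxz
        exact absurd hxz (hno x hx)
      · rw [hsS x hx, hsS z hz] at hxz
        exact hG.injs hx hz hxz
  · rw [img, Finset.disjoint_insert_left]
    refine ⟨fun h => ?_, hG.dFW⟩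
    have := hbl _ (Finset.mem_union_right _ h)
    linarith
  · rw [simg, Finset.disjoint_insert_left]
    exact ⟨fun h => hG.loS (Finset.mem_union_right _ h), hG.dSW⟩
  · rw [simg, Finset.insert_union, Finset.mem_insert, not_or]
    refine ⟨by linarith [hc], fun h => ?_⟩
    have := hbs _ h
    linarith
  · rw [simg, img, Finset.insert_union, Finset.insert_union, hG.eqn]
  · rw [img, Finset.insert_union]
    have hfw := Finset.mem_Icc.mp (hG.bd (Finset.mem_union_left _
      (Finset.mem_image_of_mem f hG.wS)))
    intro z hz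
    rcases Finset.mem_insert.mp hz with rfl | hz
    · exact Finset.mem_Icc.mpr ⟨le_rfl, by linarith [hfw.1, hfw.2]⟩
    · have := Finset.mem_Icc.mp (hG.bd hz)
      exact Finset.mem_Icc.mpr ⟨by linarith [this.1], this.2⟩

end Pool.Agent.H67.Lob
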